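import Mathlib
import Pool.Agent.Y164.HG.Form

/-!
# Project GT (helper269): the Tate conjecture over ALL the finite extensions of the constant field

Statements of the lemma jobs, with complete proofs in the docstrings. `q = |k|` throughout.
-/

set_option autoImplicit false
set_option linter.all false

open scoped Classical
open Polynomial Module

namespace Pool.Agent.Q269.GT

open Pool.Agent.Y164.HG (F2 Symp om Dat Triv V)

/-- **JOB IRR.** An irreducible polynomial over a finite field `k` stays irreducible over a finite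
extension `E` of degree prime to the degree of the polynomial.
Proof. `Ω` = algebraic closure of `E`, `β ∈ Ω` a root of `R`, `d = deg R`, `e = [E : k]`.
`[E(β) : k] = [E(β) : E] e` is divisible by `e` and by `[k(β) : k] = d`, hence by `d e`, so
`deg (minpoly E β) = [E(β) : E] ≥ d`; as `minpoly E β` divides `R.map` (degree `d`), they are associated.
(For finite fields one can also argue: `β ∈ F_{q^(e f)}`, `f = deg minpoly E β`, so `d ∣ e f`, `d ∣ f`.) -/
def S_IRR : Prop := ∀ (k E : Type) [Field k] [Finite k] [Field E] [Finite E] [Algebra k E] (R : k[X]),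
  Irreducible R → Nat.Coprime R.natDegree (finrank k E) → Irreducible (R.map (algebraMap k E))

/-- **JOB SQB.** Squares in extensions of finite fields.
Proof. `x = 0` trivial. `x ≠ 0`: Euler's criterion (`FiniteField.isSquare_iff`) in `k` and `E`;
`(q^e - 1) / 2 = (q - 1) / 2 * (1 + q + ... + q^(e-1))` and the second factor is congruent to `e` modulo `2`
(`q` is odd), so `x ^ ((q^e-1)/2) = (x ^ ((q-1)/2)) ^ e` (`x ^ ((q-1)/2) = ± 1`). -/
def S_SQB : Prop := ∀ (k E : Type) [Field k] [Finite k] [Field E] [Finite E] [Algebra k E],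
  ringChar k ≠ 2 → ∀ x : k, IsSquare (algebraMap k E x) ↔ IsSquare x ∨ Even (finrank k E)

/-- **JOB SQD.** Squares modulo an irreducible polynomial that stays irreducible (use IRR and SQB).
Proof. `F = k[X]/(R)`, `F' = E[X]/(R.map)` are finite fields (`AdjoinRoot`), there is an algebra map
`F → F'`, and `|F'| = |E|^d = |F|^e`, so `[F' : F] = e`. The left side says that the image of `f` in `F'`
is a square, the first statement on the right that the image of `f` in `F` is a square. Use SQB. -/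
def S_SQD : Prop := ∀ (k E : Type) [Field k] [Finite k] [Field E] [Finite E] [Algebra k E],
  ringChar k ≠ 2 → ∀ R f : k[X], Irreducible R → Nat.Coprime R.natDegree (finrank k E) →
    ((∃ z : E[X], R.map (algebraMap k E) ∣ z ^ 2 - f.map (algebraMap k E)) ↔
      (∃ z : k[X], R ∣ z ^ 2 - f) ∨ Even (finrank k E))

/-- **JOB SQR.** The values at a root (use SQB).
Proof. `F = k[X]/(P) = AdjoinRoot P` embeds in `E` by `root ↦ θ` (`AdjoinRoot.liftAlgHom`), and
`[E : k] = [E : F] deg P`, so `[E : F] = finrank k E / natDegree P`. The image of `g` in `F` is a square iff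
`P ∣ z ^ 2 - g` for some `z`. Use SQB for `F → E`. -/
def S_SQR : Prop := ∀ (k E : Type) [Field k] [Finite k] [Field E] [Finite E] [Algebra k E],
  ringChar k ≠ 2 → ∀ (P g : k[X]) (θ : E), Irreducible P → aeval θ P = 0 →
    (IsSquare (aeval θ g) ↔ (∃ z : k[X], P ∣ z ^ 2 - g) ∨ Even (finrank k E / P.natDegree))

/-- **JOB SPL.** The roots of an irreducible polynomial over a finite field.
Proof. The Frobenius `x ↦ x^q` fixes the coefficients, so all `θ^(q^i)` are roots; `k(θ)` has `q^m`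
elements, `m = deg P`, and `θ^(q^i) = θ` iff `m ∣ i` (if `θ^(q^i) = θ` then all the elements of `k(θ)`
satisfy `x^(q^i) = x`; with `g = gcd(i, m)` they also satisfy `x^(q^g) = x`, so `q^m ≤ q^g`). So the
`θ^(q^i)`, `i < m`, are `m` different roots of the monic polynomial `P.map` of degree `m`. For the last
statement: `x ↦ x^q` is injective, so cancel the Frobenius `min i j` times. -/
def S_SPL : Prop := ∀ (k E : Type) [Field k] [Finite k] [Field E] [Finite E] [Algebra k E] (P : k[X])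
  (θ : E), P.Monic → Irreducible P → aeval θ P = 0 →
    P.map (algebraMap k E) = ∏ i ∈ Finset.range P.natDegree, (X - C (θ ^ (Nat.card k ^ i))) ∧
    ∀ i j : ℕ, θ ^ (Nat.card k ^ i) = θ ^ (Nat.card k ^ j) ↔ i ≡ j [MOD P.natDegree]

/-- **JOB ROOT.** A finite extension whose degree is divisible by the degree of an irreducible polynomial
contains a root of it.
Proof. `AdjoinRoot P` is a finite field with `q^m` elements and `m ∣ [E : k]`, so it embeds over `k` in `E`
(Mathlib: `FiniteField.nonempty_algHom_of_finrank_dvd` or similar; or: `P` divides `X^(q^m) - X`, which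
divides `X^(|E|) - X`, which splits over `E`). -/
def S_ROOT : Prop := ∀ (k E : Type) [Field k] [Finite k] [Field E] [Finite E] [Algebra k E] (P : k[X]),
  Irreducible P → P.natDegree ∣ finrank k E → ∃ θ : E, aeval θ P = 0

/-- **JOB ORB.** Irreducible polynomials of prime degree and the elements of the field.
Proof. `θ ∉ k` implies that `minpoly k θ` has degree `m` (it divides `m`, prime, and is not `1`); the
fibre of `θ ↦ minpoly k θ` over a monic irreducible `P` of degree `m` is the set of the roots of `P` in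
`E`, which has `m` elements (`P` splits in `E` and is separable). Sum over the fibres. -/
def S_ORB : Prop := ∀ (k E : Type) [Field k] [Finite k] [Field E] [Finite E] [Algebra k E] (m : ℕ),
  m.Prime → finrank k E = m → ∀ S : Set k[X],
    {θ : E | θ ∉ Set.range (algebraMap k E) ∧ minpoly k θ ∈ S}.ncard =
      m * {P : k[X] | P.Monic ∧ Irreducible P ∧ P.natDegree = m ∧ P ∈ S}.ncard

/-- **JOB CYC.** The kernel for a prime which splits into `m` primes, `m` odd: linear algebra over `F₂`.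
Proof. Let `w = ((w_i), z)` be in the kernel of the right side (`dg w = 0`, `FF w w' = 0` for all `w'` with
`dg w' = 0`). Put `u = ∑ w_i`. For `w'_0 = (u', z')` with `dg w'_0 = 0` over `Unit` let
`w' = ((u')_i, z')`; then `dg w' = dg w'_0 = 0` (`m` is odd), and `FF w w' = FF_0 (u, z) (u', z')`: the
double sum over `i, j` of `s (j - i) (om w_j u' + om w_i u')` vanishes (swap `i` and `j`, `s` is even), the
other sums are the sums over `Unit` with `u = ∑ w_i` since `∑_i 1 = 1`. So `(u, z)` is in the kernel over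
`Unit`, hence `u = 0`, `z = 0`. Now take `w' = ((w'_i), 0)` with `∑ w'_i = 0`:
`0 = FF w w' = ∑_i om Y_i w'_i` with `Y_i = ∑_j s (j - i) (w_j + w_i) + ∑_r b_r om (w_i, t_r) t_r + ks w_i`.
Taking `w'` with two nonzero equal coordinates: `Y_i = Y_j` for all `i, j` (nondegeneracy of `om`); and
`∑ Y_i = 0` (the double sum vanishes as before and the rest is linear in `∑ w_i = 0`; `ks` is additive), so
`m Y = Y = 0`, all `Y_i = 0`, and the hypothesis gives `w_i = 0`. -/
def S_CYC : Prop := ∀ (W τ : Type) [AddCommGroup W] [Module F2 W] [Symp W] [Fintype τ] (D : Dat W τ)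
  (m : ℕ) [NeZero m], Odd m → ∀ s : ZMod m → F2, (∀ i, s (-i) = s i) → ∀ b : τ → F2,
    Triv D (fun (_ _ : Unit) => (0 : F2)) (fun _ => b) (fun _ => 1) →
    (∀ w : ZMod m → W, ∑ i, w i = 0 → (∀ i, ∑ j, s (j - i) • (w j + w i) +
      ∑ r, b r • (om (w i) (D.t r) • D.t r) + D.ks (w i) = 0) → w = 0) →
    Triv D (fun i j : ZMod m => s (j - i)) (fun _ => b) (fun _ => 1)

/-- **JOB EVN.** The kernel over the fields of even degree.
Proof. `FF w w' = ∑_s w.2 s * w'.2 s + ∑_i om (w.1 i) (w'.1 i)` (`A = B = G = 0`, `sp = 1`, `d = 1`,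
`ks = id`). Call this form `P w w'`; it is nondegenerate on `V`. `dg w' = ∑ w'_i + ∑_s w'.2 s t_s`, and
`om y (dg w') = P (TT y) w'`, `TT y = ((y)_i, (om y t_s)_s)` (here `e = 1` is used). `dg (TT u) =
(card ι + N) u = u` (`dg_TT`). Let `w` be in the kernel and `v` arbitrary: `w' = v + TT (dg v)` has
`dg w' = 0`, so `P w v = P w (TT (dg v)) = om (dg v) (dg w) = 0` as `dg w = 0`. So `P w v = 0` for all `v`,
hence `w = 0` by nondegeneracy. -/
def S_EVN : Prop := ∀ (W τ ι : Type) [AddCommGroup W] [Module F2 W] [Symp W] [Fintype τ] [Fintype ι]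
  (D : Dat W τ), (∀ s s', D.G s s' = 0) → (∀ s, D.sp s = 1) → (∀ s, D.e s = 1) → (∀ y, D.ks y = y) →
    D.N = 0 →
    Odd (Fintype.card ι) → Triv D (fun (_ _ : ι) => (0 : F2)) (fun _ _ => 0) (fun _ => 1)

/-- **JOB RLB.** The triviality of the kernel does not depend on the names.
Proof. Transport `w` by `ε` and `φ`; `dg` and `FF` are invariant (`Equiv.sum_comp`). -/
def S_RLB : Prop := ∀ (W τ τ' ι ι' : Type) [AddCommGroup W] [Module F2 W] [Symp W] [Fintype τ]
  [Fintype τ'] [Fintype ι] [Fintype ι'] (D : Dat W τ) (D' : Dat W τ') (ε : τ' ≃ τ) (φ : ι' ≃ ι)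
  (A : ι → ι → F2) (B : ι → τ → F2) (d : ι → F2) (A' : ι' → ι' → F2) (B' : ι' → τ' → F2) (d' : ι' → F2),
    (∀ s, D'.t s = D.t (ε s)) → (∀ s s', D'.G s s' = D.G (ε s) (ε s')) → (∀ s, D'.e s = D.e (ε s)) →
    (∀ s, D'.sp s = D.sp (ε s)) → (∀ y, D'.ks y = D.ks y) →
    (∀ i j, A' i j = A (φ i) (φ j)) → (∀ i s, B' i s = B (φ i) (ε s)) → (∀ i, d' i = d (φ i)) →
    Triv D A B d → Triv D' A' B' d'

/-- **JOB CHP.** The circulant system and the eigenvalues.
Proof (Fourier transform). `Ω = AlgebraicClosure F₂`; identify `W` with `F₂^d` (basis) or use a matrix.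
For `ξ ∈ Ω` with `ξ^m = 1` put `ŵ(ξ) = ∑_i ξ^i w_i ∈ Ω ⊗ W` (`= Ω^d`). Summing the equations with the
weights `ξ^i`: `(T + C) ŵ(ξ) = 0` with `T = ∑_j s_j (ξ^(-j) + 1) = ∑_j s_j (ξ^j + 1)` (`s` is even).
If `ŵ(ξ) ≠ 0` then `T = -T` is an eigenvalue of `C`, so a root of its characteristic polynomial (over `Ω`),
which is excluded for `ξ ≠ 1`. So `ŵ(ξ) = 0` for all `ξ ≠ 1`, and `ŵ(1) = ∑ w_i = 0`. `Ω` contains a
primitive `m`-th root of unity `ζ` (`m` is odd); Fourier inversion `m w_i = ∑_l ζ^(-i l) ŵ(ζ^l) = 0`, `m = 1`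
in `Ω`, so `w = 0`. -/
def S_CHP : Prop := ∀ (W : Type) [AddCommGroup W] [Module F2 W] [Finite W] (m : ℕ) [NeZero m], Odd m →
  ∀ s : ZMod m → F2, (∀ i, s (-i) = s i) → ∀ Cc : W →ₗ[F2] W,
    (∀ ξ : AlgebraicClosure F2, ξ ^ m = 1 → ξ ≠ 1 →
      aeval (∑ j : ZMod m, algebraMap F2 (AlgebraicClosure F2) (s j) * (ξ ^ j.val + 1)) Cc.charpoly ≠ 0) →
    ∀ w : ZMod m → W, ∑ i, w i = 0 → (∀ i, ∑ j, s (j - i) • (w j + w i) + Cc (w i) = 0) → w = 0

/-- the symbols of an element `θ` of an extension of `k`: `0` if `θ - θ^(q^i)` is a square, `1` if not -/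
noncomputable def sg (k : Type) {E : Type} [Field E] (θ : E) (i : ℕ) : F2 :=
  if IsSquare (θ - θ ^ (Nat.card k ^ i)) then 0 else 1

/-- **JOB SPN.** The dimension of the span of the `ξ^i + ξ^(-i)`.
Proof. `Y` = the span (over `F₂`) of `β_i = ξ^i + ξ^(m-i)`, `1 ≤ i ≤ (m-1)/2`, in `Ω`. All the
`β_i = ξ^i + ξ^(-i)`, `i ∈ ℤ`, are in `Y` (`β_0 = 0`, `β_(-i) = β_i = β_(m-i)`), and `1 = ∑_(1 ≤ i ≤ (m-1)/2) β_i ∈ Y`
(`∑_(j<m) ξ^j = 0`). `β_1 β_i = β_(i+1) + β_(i-1)`, so `β_1 Y ⊆ Y`. `Y + ξ Y` contains `1` and is stable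
under the multiplication by `ξ`: `ξ (y + ξ y') = ξ y + (β_1 ξ + 1) y' = y' + ξ (y + β_1 y')`
(`ξ^2 = β_1 ξ + 1`). So it contains all the polynomials in `ξ`, that is the field `F₂(ξ) = F₂[ξ]`, and
`|F₂(ξ)| ≤ |Y|^2`. If `|F₂(ξ)| = 2^e` then `ξ^(2^e - 1) = 1`, `m ∣ 2^e - 1` (`ξ` has order `m`, prime),
`orderOf 2 ∣ e`, so `2^(orderOf 2) ≤ 2^e`. -/
def S_SPN : Prop := ∀ (m : ℕ), m.Prime → Odd m → ∀ ξ : AlgebraicClosure F2, ξ ^ m = 1 → ξ ≠ 1 →
  2 ^ (orderOf (2 : ZMod m)) ≤ (Nat.card (Submodule.span F2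
    ((fun i : ℕ => ξ ^ i + ξ ^ (m - i)) '' Set.Icc 1 ((m - 1) / 2)))) ^ 2

/-- **JOB CNT.** The distribution of the symbols. Uses the sharp Weil bound
`Pool.Agent.H341R2.Sharp.weil_sharp` (file `Pool/Agent/H341R2/WeilSharp.lean`): for a finite field `F` with
`ringChar F ≠ 2` and `f : F[X]`, `1 ≤ f.natDegree`, `f` not of the form `C c * h ^ 2`,
`|∑ x, quadraticChar F (f.eval x)| ≤ (f.natDegree - 1) * √|F|`.
Proof. `M = (m-1)/2`, `I₀ = M - u`, `Y` = the span of the `β_i`, `1 ≤ i ≤ M` (finite), `Y_U` = the span of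
the `β_i` with `I₀ < i ≤ M` (at most `2^u` elements). `Λ` = the linear forms `ℓ : Y → F₂` which vanish on
`Y_U`; `|Λ| = |Y / Y_U| ≥ |Y| / 2^u`. We may suppose `y ∈ Y`. For `θ ∈ E`, `θ ∉ k`:
`∑_(ℓ ∈ Λ) (-1)^(ℓ(y) + ∑_(1≤i≤I₀) sg_i(θ) ℓ(β_i))` is `≥ 0` (the sum of a character of the group `Λ`) and
equal to `|Λ|` when `∑_(1≤i≤M) sg_i(θ) β_i = y`. For `θ ∉ k` and `1 ≤ i ≤ M` we have `θ^(q^i) ≠ θ` (`m` is
prime) and `(-1)^(sg_i θ) = χ(θ - θ^(q^i))`, `χ` the quadratic character of `E`. For `θ ∈ k` replace the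
inner product by `∏ χ(θ - θ^(q^i)) = χ(0)...`, which is `0` unless the index set is empty: the total is `≥ 0`
too. So `|Λ| * #{θ} ≤ ∑_(ℓ ∈ Λ) ± ∑_(θ ∈ E) χ(g_ℓ(θ))`, `g_ℓ = ∏_(1≤i≤I₀, ℓ(β_i)=1) (X - X^(q^i))`. `ℓ = 0`
gives `q^m`. `ℓ ≠ 0`: `ℓ(β_i) = 1` for some `i ≤ I₀` (the `β_i` span `Y` and `ℓ` vanishes on `Y_U`), `g_ℓ` has
degree between `1` and `q + ... + q^(I₀) ≤ 2 q^(I₀)`, and it is not `C c * h^2`: let `i₀` be the largest index
in the product; if `g_ℓ = c h^2`, take a generator `x` of a field with `q^(i₀)` elements (in the algebraic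
closure): `x^(q^(i₀)) = x`, `x^(q^i) ≠ x` for the other (smaller) indices `i ≥ 1`, and `x` is a simple root of
`X - X^(q^(i₀))` (derivative `1`), so a simple root of `g_ℓ`. Contradiction. So the sum is at most
`2 q^(I₀) q^(m/2) ≤ 2 q^(m - u)` in absolute value (`I₀ + m/2 = m - u - 1/2`). Divide by `|Λ|`:
`#{θ} ≤ q^m / |Λ| + 2 q^(m-u) ≤ q^m (2^u / |Y| + 2 / q^u)`. -/
def S_CNT : Prop := ∀ (k E : Type) [Field k] [Finite k] [Field E] [Finite E] [Algebra k E] (m : ℕ),
  ringChar k ≠ 2 → m.Prime → Odd m → finrank k E = m → ∀ (Y : Type) [AddCommGroup Y] [Module F2 Y]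
    (β : ℕ → Y) (y : Y) (u : ℕ), u ≤ (m - 1) / 2 →
    (({θ : E | θ ∉ Set.range (algebraMap k E) ∧
      ∑ i ∈ Finset.Icc 1 ((m - 1) / 2), sg k θ i • β i = y}.ncard : ℕ) : ℝ) ≤
      (Nat.card k : ℝ) ^ m * (2 ^ u / (Nat.card (Submodule.span F2 (β '' Set.Icc 1 ((m - 1) / 2))) : ℝ) +
        2 / (Nat.card k : ℝ) ^ u)

/-- **JOB EXC.** The exceptional elements (uses SPN and CNT).
Proof. Fix `ξ` with `ξ^m = 1`, `ξ ≠ 1` (at most `m` of them). `sg_0 = 0` (`0` is a square) and
`sg_(m-j)(θ) = sg_j(θ)` for `0 < j < m`: `(θ - θ^(q^(m-j)))^(q^j) = θ^(q^j) - θ = -(θ - θ^(q^j))`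
(`θ^(q^m) = θ`; `-1` is a square; a power `q^j` (odd) of a nonzero element is a square iff the element is; all
these elements are nonzero if `θ ∉ k`, not needed: `0` is a square as well). So
`∑_(j : ZMod m) sg_j (ξ^j + 1) = ∑_(1≤i≤(m-1)/2) sg_i β_i`, `β_i = ξ^i + ξ^(m-i)`. If `p` vanishes at it, it is
one of the at most `deg p` roots `y` of `p` in `Ω`. By CNT with `Y = Ω` and `|span| = 2^(f')`,
`u = ⌊f'/2⌋ ≤ (m-1)/2`: the number of `θ` for `(ξ, y)` is `≤ q^m (2^(u-f') + 2 q^(-u)) ≤ 3 q^m 2^(-u)`, and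
`2 f' ≥ f = orderOf 2` by SPN, so `u ≥ ⌊f/4⌋`. Sum over the pairs `(ξ, y)`. -/
def S_EXC : Prop := ∀ (k E : Type) [Field k] [Finite k] [Field E] [Finite E] [Algebra k E] (m : ℕ)
  [NeZero m], ringChar k ≠ 2 → IsSquare (-1 : k) → m.Prime → Odd m → finrank k E = m →
    ∀ p : F2[X], p ≠ 0 →
    (({θ : E | θ ∉ Set.range (algebraMap k E) ∧ ∃ ξ : AlgebraicClosure F2, ξ ^ m = 1 ∧ ξ ≠ 1 ∧
      aeval (∑ j : ZMod m, algebraMap F2 (AlgebraicClosure F2) (sg k θ j.val) * (ξ ^ j.val + 1)) p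
        = 0}.ncard : ℕ) : ℝ) ≤
      3 * m * p.natDegree * (Nat.card k : ℝ) ^ m / 2 ^ (orderOf (2 : ZMod m) / 4)

/-- **JOB CLS.** The number of the elements in a class of symbols (uses `weil_sharp`, see CNT).
Proof. `T = |τ|`, `D = ∑ deg Q_s`. For `θ` with all `Q_s(θ) ≠ 0` the product
`∏_s (1 + (-1)^(b_s) χ(Q_s(θ)))` is `2^T` if `θ` is in the set and `0` if not; for the at most `D` other `θ`
it is at most `2^T`. So `2^T (# + D) ≥ ∑_θ ∏_s (...) = ∑_(J ⊆ τ) ± ∑_θ χ(∏_(s∈J) Q_s(θ))`. `J = ∅` gives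
`q^m`. For `J ≠ ∅` the polynomial `∏_(s∈J) Q_s` is squarefree over `k` (different monic irreducible factors),
so separable (`k` is perfect), so squarefree over `E`, and its degree is between `1` and `D`: it is not
`C c * h^2`, and the sum is at most `D √|E|` in absolute value. So
`# ≥ |E| / 2^T - D √|E| - D ≥ |E| / 2^T - 2 D √|E|`. -/
def S_CLS : Prop := ∀ (k E : Type) [Field k] [Finite k] [Field E] [Finite E] [Algebra k E],
  ringChar k ≠ 2 → ∀ (τ : Type) [Fintype τ] (Q : τ → k[X]), (∀ s, (Q s).Monic ∧ Irreducible (Q s)) →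
    Function.Injective Q → ∀ b : τ → F2,
    (Nat.card E : ℝ) / 2 ^ Fintype.card τ - 2 * (∑ s, ((Q s).natDegree : ℝ)) * Real.sqrt (Nat.card E) ≤
      (({θ : E | ∀ s, aeval θ (Q s) ≠ 0 ∧ (IsSquare (aeval θ (Q s)) ↔ b s = 0)}.ncard : ℕ) : ℝ)

/-- **JOB ORD.** Infinitely many primes modulo which `2` has large order.
Proof. For a prime `m ≤ x` with `2^(orderOf 2) < m^K` we have `orderOf 2 ≤ y := K log₂ x`, and `m` divides
`∏_(1≤j≤y) (2^j - 1) < 2^(y^2)` (a positive number); a positive number `< 2^(y²)` has at most `y²` prime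
divisors. So there are at most `K² (log₂ x)²` such primes up to `x`. The number of all primes up to `x = 2n`
is larger for large `n`: every prime power dividing `centralBinom n` is at most `2 n`
(`Nat.factorization_choose_le...`), so `4^n ≤ 2 n * centralBinom n ≤ (2 n)^(π(2n) + 1)`, and
`π(2n) + 1 ≥ 2 n / log₂ (2 n)`. (Or any Chebyshev bound in Mathlib, e.g. in `Mathlib/NumberTheory/Chebyshev`.)
If the set were finite this would contradict the count for large `x`. -/
def S_ORD : Prop := ∀ K : ℕ, {m : ℕ | m.Prime ∧ m ^ K ≤ 2 ^ (orderOf (2 : ZMod m))}.Infinite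

end Pool.Agent.Q269.GT
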