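import Pool.Agent.Y164.HG.Geo
import Pool.Agent.Q269.GT.Stm

/-!
# Base change of the symbols and of the data
-/

set_option autoImplicit false
set_option linter.all false

open scoped Classical
open Polynomial Module

namespace Pool.Agent.Q269.GT

open Finset
open Pool.Agent.H341R2.Sharp
open Pool.Agent.Y164.HG
open Pool.Agent.Y164.PS (L ch lam_mem L_C ch_mul ch_eq_zero_iff L_mul_left coprime_C
  coprime_of_not_dvd L_of_not_coprime lam_eq_zero_iff Fam)

variable {k E : Type} [Field k] [Fintype k] [DecidableEq k] [Field E] [Fintype E] [DecidableEq E]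
  [Algebra k E]

theorem ringChar_E (hk : ringChar k ≠ 2) : ringChar E ≠ 2 := by
  rwa [← Algebra.ringChar_eq k E]

theorem qc_map (hk : ringChar k ≠ 2) (x : k) :
    quadraticChar E (algebraMap k E x) = quadraticChar k x ^ finrank k E := by
  rw [qc_norm hk, Algebra.norm_algebraMap, map_pow]

theorem lam_map (hk : ringChar k ≠ 2) (f g : k[X]) :
    lam (f.map (algebraMap k E)) (g.map (algebraMap k E)) = lam f g ^ finrank k E := by
  unfold lam
  rw [natDegree_map, natDegree_map, resultant_map_map, qc_map hk]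

/-- the symbol of a power -/
theorem sym_pow {x : ℤ} (hx : x = 0 ∨ x = 1 ∨ x = -1) {e : ℕ} (he : 0 < e) :
    (if x ^ e = -1 then (1 : F2) else 0) = (e : F2) * (if x = -1 then 1 else 0) := by
  rcases hx with rfl | rfl | rfl
  · rw [zero_pow he.ne', if_neg (by norm_num), mul_zero]
  · rw [one_pow, if_neg (by norm_num), mul_zero]
  · rw [if_pos rfl, mul_one]
    rcases Nat.even_or_odd e with h | h
    · rw [h.neg_one_pow, if_neg (by norm_num), (ZMod.natCast_eq_zero_iff_even).2 h]
    · rw [h.neg_one_pow, if_pos rfl, (ZMod.natCast_eq_one_iff_odd).2 h]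

theorem L_map (hk : ringChar k ≠ 2) (f g : k[X]) :
    L (f.map (algebraMap k E)) (g.map (algebraMap k E)) = (finrank k E : F2) * L f g := by
  unfold L
  rw [lam_map hk]
  exact sym_pow (lam_mem f g) finrank_pos

theorem qc_mem (F : Type) [Field F] [Fintype F] [DecidableEq F] (x : F) :
    quadraticChar F x = 0 ∨ quadraticChar F x = 1 ∨ quadraticChar F x = -1 := by
  by_cases h : x = 0
  · left; rw [h]; simp
  · right; exact quadraticChar_dichotomy h

theorem ch_map (hk : ringChar k ≠ 2) (x : k) :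
    ch (algebraMap k E x) = (finrank k E : F2) * ch x := by
  unfold ch
  rw [qc_map hk]
  exact sym_pow (qc_mem k x) finrank_pos

/-- the symbol of a value -/
theorem ch_aeval (hk : ringChar k ≠ 2) {P : k[X]} (hP : P.Monic) (hi : Irreducible P) {θ : E}
    (hθ : aeval θ P = 0) (f : k[X]) :
    ch (aeval θ f) = ((finrank k E / P.natDegree : ℕ) : F2) * L f P := by
  have hm : minpoly k θ = P := (minpoly.eq_of_irreducible_of_monic hi hθ hP).symm
  have h1 := qc_aeval (F := k) (E := E) hk f θ
  rw [hm] at h1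
  unfold ch L
  rw [h1]
  apply sym_pow (lam_mem f P)
  have hd : P.natDegree ∣ finrank k E := by
    rw [← hm]
    exact minpoly.degree_dvd (IsIntegral.of_finite k θ)
  exact Nat.div_pos (Nat.le_of_dvd finrank_pos hd) hi.natDegree_pos

theorem L_lin (hk : ringChar k ≠ 2) (f : k[X]) (θ : k) : L f (X - C θ) = ch (f.eval θ) := by
  have h1 := qc_aeval (F := k) (E := k) hk f θ
  rw [minpoly.eq_X_sub_C', natDegree_X_sub_C, finrank_self, Nat.div_one, pow_one, coe_aeval_eq_eval] at h1
  unfold ch L
  rw [h1]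

/-- a constant factor -/
theorem L_Cmul {c : k} (hc : c ≠ 0) {f g : k[X]} (hg : Irreducible g) (h : ¬ g ∣ f) :
    L (C c * f) g = (g.natDegree : F2) * ch c + L f g := by
  have hf : f ≠ 0 := by
    rintro rfl
    exact h (dvd_zero _)
  rw [L_mul_left hg.ne_zero (C_ne_zero.2 hc) hf (coprime_C hc g) (coprime_of_not_dvd hg h), L_C hc]

section geo
variable {n : ℕ} {a : Fin n → k[X]} {N : ℕ} (H : Geo a N) {c : E} (hc : c ≠ 0)

/-- the family over `E` -/
noncomputable abbrev aE (a : Fin n → k[X]) (c : E) : Fin n → E[X] :=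
  fun i => C c * (a i).map (algebraMap k E)

theorem aE_sub (i j : Fin n) : aE a c i - aE a c j = C c * (a i - a j).map (algebraMap k E) := by
  rw [Polynomial.map_sub, mul_sub]

variable (H' : Geo (aE a c) N) (ε : Tau (aE a c) ≃ Tau a)
  (hε : ∀ s, QQ (aE a c) s = (QQ a (ε s)).map (algebraMap k E))

include hε in
theorem pq_eq (s : Tau (aE a c)) : H'.p s = H.p (ε s) ∧ H'.q s = H.q (ε s) := by
  apply H'.uniq (H'.fam.irr s) (H'.lt s) (H.lt (ε s)) (H'.dvd s)
  rw [aE_sub, hε]
  exact (Polynomial.map_dvd _ (H.dvd (ε s))).mul_left _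

include hε in
theorem G_eq (hk : ringChar k ≠ 2) (s s' : Tau (aE a c)) :
    L (QQ (aE a c) s) (QQ (aE a c) s') = (finrank k E : F2) * L (QQ a (ε s)) (QQ a (ε s')) := by
  rw [hε, hε, L_map hk]

include hε in
theorem e_eq (s : Tau (aE a c)) : (QQ (aE a c) s).natDegree = (QQ a (ε s)).natDegree := by
  rw [hε, natDegree_map]

include H hc in
theorem c_eq {i j : Fin n} (h : i ≠ j) : ch (aE a c i - aE a c j).leadingCoeff =
    ch c + (finrank k E : F2) * ch (a i - a j).leadingCoeff := by
  have hl : (a i - a j).leadingCoeff ≠ 0 := leadingCoeff_ne_zero.2 (H.ne h)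
  rw [aE_sub, leadingCoeff_mul, leadingCoeff_C, leadingCoeff_map,
    ch_mul hc ((_root_.map_ne_zero _).2 hl), ch_map H.hk]

include H hc in
theorem ksf_eq {y : Fin n → F2} (hy : ∑ i, y i = 0) (i : Fin n) :
    H'.comb.ksf y i = ch c * y i + (finrank k E : F2) * H.comb.ksf y i := by
  unfold Comb.ksf
  have h1 : ∀ j, (y i + y j) * H'.comb.c i j =
      (y i + y j) * ch c + (finrank k E : F2) * ((y i + y j) * H.comb.c i j) := by
    intro j
    by_cases h : i = j
    · rw [h, F2_add_self, zero_mul, zero_mul, zero_mul, mul_zero, add_zero]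
    · show (y i + y j) * ch (aE a c i - aE a c j).leadingCoeff = _
      rw [c_eq H hc h]
      show _ = (y i + y j) * ch c + (finrank k E : F2) * ((y i + y j) * ch (a i - a j).leadingCoeff)
      ring
  rw [sum_congr rfl fun j _ => h1 j, sum_add_distrib, ← mul_sum, ← sum_mul, sum_add_distrib, hy,
    add_zero, sum_const, card_univ, Fintype.card_fin, nsmul_eq_mul, odd_cast H.hn, one_mul]
  ring

include H hc hε in
theorem gg_eq [Fact (Odd n)] (s : Tau (aE a c)) : H'.comb.gg s =
    ((QQ a (ε s)).natDegree : F2) * ch c + (finrank k E : F2) * H.comb.gg (ε s) := by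
  obtain ⟨hp, hq⟩ := pq_eq H H' ε hε s
  unfold Comb.gg
  have h1 : ∀ l, (if l = H'.comb.p s ∨ l = H'.comb.q s then (0 : F2) else H'.comb.lam s l) =
      (if l = H.p (ε s) ∨ l = H.q (ε s) then 0 else ((QQ a (ε s)).natDegree : F2) * ch c) +
      (finrank k E : F2) * (if l = H.comb.p (ε s) ∨ l = H.comb.q (ε s) then 0 else
        H.comb.lam (ε s) l) := by
    intro l
    have e1 : H'.comb.p s = H.p (ε s) := hp
    have e2 : H'.comb.q s = H.q (ε s) := hq
    have e3 : H.comb.p (ε s) = H.p (ε s) := rfl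
    have e4 : H.comb.q (ε s) = H.q (ε s) := rfl
    rw [e1, e2, e3, e4]
    by_cases h : l = H.p (ε s) ∨ l = H.q (ε s)
    · rw [if_pos h, if_pos h, if_pos h, mul_zero, add_zero]
    · rw [if_neg h, if_neg h, if_neg h]
      push Not at h
      show L (aE a c (H'.p s) - aE a c l) (QQ (aE a c) s) = _ +
        (finrank k E : F2) * L (a (H.p (ε s)) - a l) (QQ a (ε s))
      have hnd : ¬ QQ a (ε s) ∣ a (H.p (ε s)) - a l := by
        rw [H.dvd_iff (ε s) h.1.symm]
        rintro (⟨_, h'⟩ | ⟨_, h'⟩)
        · exact h.2 h'.symm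
        · exact (ne_of_lt (H.lt (ε s))) h'.symm
      rw [hp, aE_sub, L_Cmul hc (H'.fam.irr s), hε, natDegree_map, L_map H.hk]
      rw [hε]
      intro h2
      exact hnd ((map_dvd_map' _).1 h2)
  rw [sum_congr rfl fun l _ => h1 l, sum_add_distrib, ← mul_sum]
  congr 1
  have h2 : ∀ x : F2, ∑ l, (if l = H.p (ε s) ∨ l = H.q (ε s) then (0 : F2) else x) = x := by
    intro x
    have h3 : ∀ l, (if l = H.p (ε s) ∨ l = H.q (ε s) then (0 : F2) else x) =
        x + e2 (H.p (ε s)) (H.q (ε s)) l * x := by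
      intro l
      have hne := ne_of_lt (H.lt (ε s))
      by_cases h4 : l = H.p (ε s)
      · rw [if_pos (Or.inl h4), e2, if_pos h4.symm, if_neg (fun h5 => hne (h4.symm.trans h5.symm)),
          add_zero, one_mul, F2_add_self]
      · by_cases h5 : l = H.q (ε s)
        · rw [if_pos (Or.inr h5), e2, if_neg (fun h6 => h4 h6.symm), if_pos h5.symm, zero_add, one_mul,
            F2_add_self]
        · rw [if_neg (by tauto), e2, if_neg (fun h6 => h4 h6.symm), if_neg (fun h6 => h5 h6.symm),
            add_zero, zero_mul, add_zero]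
    rw [sum_congr rfl fun l _ => h3 l, sum_add_distrib, ← sum_mul, e2_sum, zero_mul, add_zero,
      sum_const, card_univ, Fintype.card_fin, nsmul_eq_mul, odd_cast H.hn, one_mul]
  exact h2 _

end geo

end Pool.Agent.Q269.GT
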