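import Pool.Agent.Q269.GT.Fin

/-!
# The explicit form of the conditions
-/

set_option autoImplicit false
set_option linter.all false

open scoped Classical
open Polynomial Module

namespace Pool.Agent.Q269.GT

open Finset
open Pool.Agent.H341R2.Sharp
open Pool.Agent.Y164.HG
open Pool.Agent.Y164.PS (L ch lam_mem L_C ch_mul ch_eq_zero_iff L_mul_left coprime_C
  coprime_of_not_dvd L_of_not_coprime lam_eq_zero_iff Fam L_comm L_neg_left L_eq_zero_iff L_congr)

section defs
variable {k : Type} [Field k] {n : ℕ}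

/-- `f` is a square modulo `Q`. -/
def SquareMod (Q f : k[X]) : Prop := ∃ g : k[X], Q ∣ g ^ 2 - f

/-- The symbol of `f` modulo `Q` with values in `ZMod 2`. -/
noncomputable def symbol (f Q : k[X]) : ZMod 2 := if SquareMod Q f then 0 else 1

/-- The bad primes. -/
def IsBad (a : Fin n → k[X]) (Q : k[X]) : Prop :=
  Q.Monic ∧ Irreducible Q ∧ ∃ i j, i ≠ j ∧ Q ∣ a i - a j

/-- The set of the bad primes. -/
abbrev Bad (a : Fin n → k[X]) : Type := {Q : k[X] // IsBad a Q}

/-- The index `l` is one of the two indices of the bad prime `Q`. -/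
def AtNode (a : Fin n → k[X]) (Q : k[X]) (l : Fin n) : Prop := ∃ i, i ≠ l ∧ Q ∣ a i - a l

/-- The vector `e i + e j`, if `Q` divides `a i - a j`. -/
noncomputable def node (a : Fin n → k[X]) (Q : k[X]) (l : Fin n) : ZMod 2 :=
  if AtNode a Q l then 1 else 0

/-- The scalar product. -/
def dot (x y : Fin n → ZMod 2) : ZMod 2 := ∑ i, x i * y i

/-- The vector `∑ z Q • node Q`. -/
noncomputable def weight (a : Fin n → k[X]) (z : Bad a → ZMod 2) (i : Fin n) : ZMod 2 :=
  ∑ᶠ Q : Bad a, z Q * node a Q.1 i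

/-- The sum of the symbols of `a i - a l` modulo `Q`, where `i` is one of the indices of `Q` and `l`
runs through the other indices. -/
noncomputable def other (a : Fin n → k[X]) (Q : k[X]) : ZMod 2 :=
  ∑ l, if AtNode a Q l then 0
    else if ∃ i, AtNode a Q i ∧ SquareMod Q (a i - a l) then 0 else 1

/-- The contribution of the leading coefficients. -/
noncomputable def leading (a : Fin n → k[X]) (w : Fin n → ZMod 2) (i : Fin n) : ZMod 2 :=
  ∑ j, (w i + w j) * (if IsSquare (a i - a j).leadingCoeff then 0 else 1)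

/-- The form. -/
noncomputable def form (a : Fin n → k[X]) (R : k[X]) (z z' : Bad a → ZMod 2) : ZMod 2 :=
  ∑ᶠ Q : Bad a, symbol R Q.1 * ((z Q + dot (weight a z) (node a Q.1)) *
    (z' Q + dot (weight a z') (node a Q.1))) +
  ∑ᶠ Q : Bad a, other a Q.1 * (z Q * z' Q) +
  ∑ᶠ Q : Bad a, ∑ᶠ Q' : Bad a, symbol Q.1 Q'.1 *
    (z Q' * z' Q * dot (node a Q'.1) (node a Q.1)) +
  dot (leading a (weight a z)) (weight a z')

/-- The form is nondegenerate. -/
def Nondegenerate (a : Fin n → k[X]) (R : k[X]) : Prop :=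
  ∀ z : Bad a → ZMod 2, (∀ z', form a R z z' = 0) → z = 0

end defs

variable {k : Type} [Field k] [Fintype k] [DecidableEq k] {n : ℕ}

theorem symbol_eq (hk : ringChar k ≠ 2) {f Q : k[X]} (hQ : Q.Monic) (hi : Irreducible Q) :
    symbol f Q = L f Q := by
  unfold symbol SquareMod
  by_cases h : Q ∣ f
  · rw [if_pos ⟨0, by rw [zero_pow two_ne_zero, zero_sub, dvd_neg]; exact h⟩]
    symm
    exact L_of_not_coprime hi.ne_zero fun hc => hi.not_isUnit (hc.isUnit_of_dvd' h dvd_rfl)
  · rw [← L_eq_zero_iff hk hQ hi h]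
    by_cases h0 : L f Q = 0
    · rw [if_pos h0, h0]
    · rw [if_neg h0, F2_ne_zero h0]

variable {a : Fin n → k[X]} {N : ℕ} (H : Geo a N)

include H

theorem isBad_iff {Q : k[X]} : IsBad a Q ↔ Q ∈ bpF a := by
  rw [H.mem]
  refine and_congr_right fun _ => and_congr_right fun hi => ?_
  constructor
  · rintro ⟨i, j, hij, hd⟩
    exact hd.trans (H.dvd_del hij)
  · intro h
    obtain ⟨x, hx, hd⟩ := (hi.prime.dvd_finset_prod_iff _).1 h
    exact ⟨x.1, x.2, ne_of_lt (mem_filter.1 hx).2, hd⟩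

/-- the bad primes -/
noncomputable def bEq : Tau a ≃ Bad a := Equiv.subtypeEquivRight fun Q => (isBad_iff H).symm

omit H in
theorem bEq_val (H : Geo a N) (s : Tau a) : (bEq H s).1 = QQ a s := rfl

theorem finsum_bad (f : Bad a → ZMod 2) : ∑ᶠ Q : Bad a, f Q = ∑ s : Tau a, f (bEq H s) := by
  rw [← finsum_eq_sum_of_fintype, finsum_comp_equiv (bEq H)]

theorem atNode_iff (s : Tau a) (l : Fin n) : AtNode a (QQ a s) l ↔ l = H.p s ∨ l = H.q s := by
  constructor
  · rintro ⟨i, hi, hd⟩
    rcases (H.dvd_iff s hi).1 hd with ⟨h1, h2⟩ | ⟨h1, h2⟩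
    · exact Or.inr h2.symm
    · exact Or.inl h1.symm
  · rintro (rfl | rfl)
    · exact ⟨H.q s, (ne_of_lt (H.lt s)).symm, by rw [← neg_sub, dvd_neg]; exact H.dvd s⟩
    · exact ⟨H.p s, ne_of_lt (H.lt s), H.dvd s⟩

theorem node_eq (s : Tau a) : node a (QQ a s) = e2 (H.p s) (H.q s) := by
  funext l
  rw [node, e2]
  have hne := ne_of_lt (H.lt s)
  by_cases h1 : H.p s = l
  · rw [if_pos ((atNode_iff H s l).2 (Or.inl h1.symm)), if_pos h1, if_neg, add_zero]
    rintro h2
    exact hne (h1.trans h2.symm)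
  · by_cases h2 : H.q s = l
    · rw [if_pos ((atNode_iff H s l).2 (Or.inr h2.symm)), if_neg h1, if_pos h2, zero_add]
    · rw [if_neg, if_neg h1, if_neg h2, add_zero]
      rw [atNode_iff H]
      rintro (h | h)
      · exact h1 h.symm
      · exact h2 h.symm

theorem other_eq [Fact (Odd n)] (s : Tau a) : other a (QQ a s) = H.comb.gg s := by
  rw [other, Comb.gg]
  refine sum_congr rfl fun l _ => ?_
  show _ = if l = H.p s ∨ l = H.q s then (0 : F2) else L (a (H.p s) - a l) (QQ a s)
  by_cases hl : l = H.p s ∨ l = H.q s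
  · rw [if_pos hl, if_pos ((atNode_iff H s l).2 hl)]
  · rw [if_neg hl, if_neg (fun h => hl ((atNode_iff H s l).1 h))]
    push Not at hl
    have h1 : ¬ QQ a s ∣ a (H.p s) - a l := by
      rw [H.dvd_iff s hl.1.symm]
      rintro (⟨_, h⟩ | ⟨_, h⟩)
      · exact hl.2 h.symm
      · exact (ne_of_lt (H.lt s)) h.symm
    have h2 : (∃ i, AtNode a (QQ a s) i ∧ SquareMod (QQ a s) (a i - a l)) ↔
        L (a (H.p s) - a l) (QQ a s) = 0 := by
      rw [L_eq_zero_iff H.hk (H.fam.mon s) (H.fam.irr s) h1]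
      constructor
      · rintro ⟨i, hi, z, hz⟩
        rcases (atNode_iff H s i).1 hi with rfl | rfl
        · exact ⟨z, hz⟩
        · refine ⟨z, ?_⟩
          have h3 : z ^ 2 - (a (H.p s) - a l) = (z ^ 2 - (a (H.q s) - a l)) -
              (a (H.p s) - a (H.q s)) := by ring
          rw [h3]
          exact dvd_sub hz (H.dvd s)
      · rintro ⟨z, hz⟩
        exact ⟨H.p s, (atNode_iff H s _).2 (Or.inl rfl), z, hz⟩
    by_cases h0 : L (a (H.p s) - a l) (QQ a s) = 0
    · rw [if_pos (h2.2 h0), h0]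
    · rw [if_neg (fun h => h0 (h2.1 h)), F2_ne_zero h0]

theorem weight_eq (z : Bad a → ZMod 2) : weight a z = wv H fun s => z (bEq H s) := by
  funext i
  rw [weight, finsum_bad H, wv]
  refine sum_congr rfl fun s _ => ?_
  rw [bEq_val, node_eq H]

theorem leading_eq [Fact (Odd n)] (w : Fin n → ZMod 2) : leading a w = H.comb.ksf w := by
  funext i
  rw [leading, Comb.ksf]
  refine sum_congr rfl fun j _ => ?_
  show _ = (w i + w j) * ch (a i - a j).leadingCoeff
  by_cases hij : i = j
  · rw [hij, F2_add_self, zero_mul, zero_mul]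
  · have h0 : (a i - a j).leadingCoeff ≠ 0 := leadingCoeff_ne_zero.2 (H.ne hij)
    congr 1
    by_cases h : IsSquare (a i - a j).leadingCoeff
    · rw [if_pos h, (ch_eq_zero_iff h0).2 h]
    · rw [if_neg h, F2_ne_zero fun h1 => h ((ch_eq_zero_iff h0).1 h1)]

theorem form_eq [Fact (Odd n)] (R : k[X]) (z z' : Bad a → ZMod 2) :
    form a R z z' = fm H R (fun s => z (bEq H s)) (fun s => z' (bEq H s)) := by
  have h1 : ∀ s : Tau a, symbol R (bEq H s).1 = L R (QQ a s) := fun s =>
    symbol_eq H.hk (H.fam.mon s) (H.fam.irr s)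
  have h2 : ∀ s : Tau a, node a (bEq H s).1 = e2 (H.p s) (H.q s) := fun s => node_eq H s
  have h3 : ∀ s : Tau a, other a (bEq H s).1 = H.comb.gg s := fun s => other_eq H s
  have h4 : ∀ s s' : Tau a, symbol (bEq H s).1 (bEq H s').1 = L (QQ a s) (QQ a s') := fun s s' =>
    symbol_eq H.hk (H.fam.mon s') (H.fam.irr s')
  have h5 : ∀ x y : Fin n → F2, dot x y = dt x y := fun x y => rfl
  have e1 : ∑ᶠ Q : Bad a, symbol R Q.1 * ((z Q + dot (weight a z) (node a Q.1)) *
      (z' Q + dot (weight a z') (node a Q.1))) = ∑ s, L R (QQ a s) *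
      ((z (bEq H s) + dt (wv H fun s => z (bEq H s)) (e2 (H.p s) (H.q s))) *
      (z' (bEq H s) + dt (wv H fun s => z' (bEq H s)) (e2 (H.p s) (H.q s)))) := by
    rw [finsum_bad H]
    refine sum_congr rfl fun s _ => ?_
    rw [h1 s, h2 s, h5, h5, weight_eq H z, weight_eq H z']
  have e2' : ∑ᶠ Q : Bad a, other a Q.1 * (z Q * z' Q) =
      ∑ s, H.comb.gg s * (z (bEq H s) * z' (bEq H s)) := by
    rw [finsum_bad H]
    refine sum_congr rfl fun s _ => ?_
    rw [h3 s]
  have e3 : ∑ᶠ Q : Bad a, ∑ᶠ Q' : Bad a, symbol Q.1 Q'.1 *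
      (z Q' * z' Q * dot (node a Q'.1) (node a Q.1)) =
      ∑ s, ∑ s', L (QQ a s) (QQ a s') * (z (bEq H s') * z' (bEq H s) *
        dt (e2 (H.p s') (H.q s')) (e2 (H.p s) (H.q s))) := by
    rw [finsum_bad H]
    refine sum_congr rfl fun s _ => ?_
    rw [finsum_bad H]
    refine sum_congr rfl fun s' _ => ?_
    rw [h4 s s', h2 s, h2 s', h5]
  have e4 : dot (leading a (weight a z)) (weight a z') =
      dt (H.comb.ksf (wv H fun s => z (bEq H s))) (wv H fun s => z' (bEq H s)) := by
    rw [h5, leading_eq H, weight_eq H z, weight_eq H z']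
  rw [form, e1, e2', e3, e4]
  rfl

theorem nd_iff [Fact (Odd n)] (R : k[X]) : Nondegenerate a R ↔
    ∀ z : Tau a → F2, (∀ z', fm H R z z' = 0) → z = 0 := by
  constructor
  · intro h z hz
    have h1 := h (fun Q => z ((bEq H).symm Q)) (fun z' => by
      rw [form_eq H]
      simp only [Equiv.symm_apply_apply]
      exact hz _)
    funext s
    have h2 := congrFun h1 (bEq H s)
    simp only [Equiv.symm_apply_apply] at h2
    exact h2
  · intro h z hz
    have h1 := h (fun s => z (bEq H s)) (fun z' => by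
      have := hz (fun Q => z' ((bEq H).symm Q))
      rw [form_eq H] at this
      simpa only [Equiv.symm_apply_apply] using this)
    funext Q
    have h2 := congrFun h1 ((bEq H).symm Q)
    simp only [Equiv.apply_symm_apply] at h2
    exact h2

end Pool.Agent.Q269.GT
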