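import Pool.Agent.Q269.GT.Bd

/-!
# The explicit form of the theorem
-/

set_option autoImplicit false
set_option linter.all false

open scoped Classical
open Polynomial Module

namespace Pool.Agent.Q269.GT

open Finset
open Pool.Agent.H341R2.Sharp
open Pool.Agent.Y164.HG
open Pool.Agent.Y713.Jac (J ShaPrimaryTrivial)
open Pool.Agent.Y164.PS (L ch lam_mem L_C ch_mul ch_eq_zero_iff L_mul_left coprime_C
  coprime_of_not_dvd L_of_not_coprime lam_eq_zero_iff Fam L_comm L_neg_left L_eq_zero_iff L_congr)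

/-- The polynomial `P(t) ∏ (x - c a i)` in `x` over `K = E(t)`. -/
noncomputable def curve {k E : Type} [Field k] [Field E] [Algebra k E] (K : Type) [Field K]
    [Algebra E[X] K] {n : ℕ} (a : Fin n → k[X]) (P : k[X]) (c : E) : K[X] :=
  C (algebraMap E[X] K (P.map (algebraMap k E))) *
    ∏ i, (X - C (algebraMap E[X] K (C c * (a i).map (algebraMap k E))))

/-- The conclusion for the prime `P`. -/
def Full {k : Type} [Field k] {n : ℕ} (a : Fin n → k[X]) (P : k[X]) : Prop :=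
  ∀ (E : Type) [Field E] [Finite E] [Algebra k E],
    (∀ Q, IsBad a Q → Nat.Coprime Q.natDegree (finrank k E)) →
    ∀ c : E, c ≠ 0 → (Even (finrank k E) → ¬ IsSquare c) →
    ∀ (K : Type) [Field K] [Algebra E[X] K] [IsFractionRing E[X] K],
      ShaPrimaryTrivial 2 (curve K a P c) E[X] ∧
      ∀ x : J 2 (curve K a P c) K, ∃ t y : J 2 (curve K a P c) K, t ^ 2 = 1 ∧ x = t * y ^ 2

/-- The monic irreducible polynomials of degree `m` with the same symbols as `R` at the bad primes. -/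
def PrimesOf {k : Type} [Field k] {n : ℕ} (a : Fin n → k[X]) (R : k[X]) (m : ℕ) : Set k[X] :=
  {P | P.Monic ∧ Irreducible P ∧ P.natDegree = m ∧ ¬ IsBad a P ∧
    ∀ Q, IsBad a Q → (SquareMod Q P ↔ SquareMod Q R)}

/-- The conditions on the class of `R`. -/
def IsGood {k : Type} [Field k] {n : ℕ} (a : Fin n → k[X]) (R : k[X]) : Prop :=
  Nondegenerate a R ∧ ∀ c : k, ¬ IsSquare c → Nondegenerate (fun i => C c * a i) R

variable {k : Type} [Field k] [Fintype k] [DecidableEq k] {n : ℕ}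
variable {a : Fin n → k[X]} {N : ℕ} (H : Geo a N)

theorem aE_self (a : Fin n → k[X]) (c : k) : aE a c = fun i => C c * a i := by
  funext i
  simp only [aE, Algebra.algebraMap_self, Polynomial.map_id]

include H

theorem full_of_fullL {P : k[X]} (h : FullL a P) : Full a P := by
  intro E _ _ _ hco c hc hcs K _ _ _
  refine h E (fun Q hQ hd => ?_) c hc hcs K
  have hq0 : Q.leadingCoeff ≠ 0 := leadingCoeff_ne_zero.2 hQ.ne_zero
  have hass : Associated Q (Q * C Q.leadingCoeff⁻¹) :=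
    ⟨(isUnit_C.2 (IsUnit.mk0 _ (inv_ne_zero hq0))).unit, rfl⟩
  have hb : IsBad a (Q * C Q.leadingCoeff⁻¹) := by
    rw [isBad_iff H, H.mem]
    exact ⟨monic_mul_leadingCoeff_inv hQ.ne_zero, hass.irreducible hQ,
      (hass.symm.dvd).trans hd⟩
  have h1 := hco _ hb
  rwa [natDegree_mul_C (inv_ne_zero hq0)] at h1

theorem same_of {P R : k[X]} (h : ∀ Q, IsBad a Q → (SquareMod Q P ↔ SquareMod Q R)) :
    SameC a P R := by
  intro s
  rw [← symbol_eq H.hk (H.fam.mon s) (H.fam.irr s), ← symbol_eq H.hk (H.fam.mon s) (H.fam.irr s),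
    symbol, symbol]
  have h1 := h (QQ a s) ((isBad_iff H).2 s.2)
  by_cases h2 : SquareMod (QQ a s) R
  · rw [if_pos h2, if_pos (h1.2 h2)]
  · rw [if_neg h2, if_neg fun h3 => h2 (h1.1 h3)]

theorem of_same {P R : k[X]} (h : SameC a P R) :
    ∀ Q, IsBad a Q → (SquareMod Q P ↔ SquareMod Q R) := by
  intro Q hQ
  have h1 := h ⟨Q, (isBad_iff H).1 hQ⟩
  rw [← symbol_eq H.hk (H.fam.mon _) (H.fam.irr _), ← symbol_eq H.hk (H.fam.mon _) (H.fam.irr _)] at h1
  have h2 : symbol P Q = symbol R Q := h1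
  rw [symbol, symbol] at h2
  by_cases h3 : SquareMod Q P
  · rw [if_pos h3] at h2
    by_cases h4 : SquareMod Q R
    · exact ⟨fun _ => h4, fun _ => h3⟩
    · rw [if_neg h4] at h2
      exact absurd h2 (by decide)
  · rw [if_neg h3] at h2
    by_cases h4 : SquareMod Q R
    · rw [if_pos h4] at h2
      exact absurd h2 (by decide)
    · exact ⟨fun h5 => absurd h5 h3, fun h5 => absurd h5 h4⟩

theorem sum_deg : (∑ s : Tau a, ((QQ a s).natDegree : ℝ)) ≤ ((Del a).natDegree : ℝ) := by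
  have h1 : ∏ s : Tau a, QQ a s ∣ Del a := by
    apply Finset.prod_dvd_of_coprime
    · intro s _ s' _ hss
      apply coprime_of_not_dvd (H.fam.irr s')
      intro hd
      have h2 := (H.fam.irr s').associated_of_dvd (H.fam.irr s) hd
      exact hss (H.fam.inj (eq_of_monic_of_associated (H.fam.mon s') (H.fam.mon s) h2).symm)
    · intro s _
      exact (H.mem.1 s.2).2.2
  have h2 := natDegree_le_of_dvd h1 H.del_ne
  rw [natDegree_prod_of_monic _ _ fun s _ => H.fam.mon s] at h2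
  exact_mod_cast h2

theorem geo_const {g : k} (hg : g ≠ 0) : Geo (aE a g) N := by
  have h := (Pool.Agent.Q237.GT.t_BAS k k n N a H (fun Q _ _ => by
    rw [finrank_self]
    exact Nat.coprime_one_right _) g hg).1
  exact h

theorem bad_const {g : k} (hg : g ≠ 0) {Q : k[X]} : IsBad (aE a g) Q ↔ IsBad a Q := by
  unfold IsBad
  refine and_congr_right fun _ => and_congr_right fun _ => ?_
  refine exists_congr fun i => exists_congr fun j => and_congr_right fun _ => ?_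
  rw [aE_self, ← mul_sub]
  exact (isUnit_C.2 (isUnit_iff_ne_zero.2 hg)).dvd_mul_left

/-- the exceptional primes of a class -/
theorem main_bad (hN : Even N) (hodd : ∀ Q, IsBad a Q → Odd Q.natDegree) {R : k[X]}
    (hR : IsGood a R) {m : ℕ} (hm : m.Prime) (hmo : Odd m) :
    (({P : k[X] | P ∈ PrimesOf a R m ∧ ¬ Full a P}.ncard : ℕ) : ℝ) ≤
      6 * ((n : ℝ) - 1) * (Nat.card k : ℝ) ^ m / 2 ^ (orderOf (2 : ZMod m) / 4) := by
  haveI : Fact (Odd n) := ⟨H.hn⟩
  obtain ⟨g, hg⟩ := FiniteField.exists_nonsquare H.hk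
  have hg0 : g ≠ 0 := by
    rintro rfl
    exact hg IsSquare.zero
  have Hg := geo_const H hg0
  have hodd' : ∀ Q : k[X], Irreducible Q → Q ∣ Del a → Odd Q.natDegree := by
    intro Q hQ hd
    have hq0 : Q.leadingCoeff ≠ 0 := leadingCoeff_ne_zero.2 hQ.ne_zero
    have hass : Associated Q (Q * C Q.leadingCoeff⁻¹) :=
      ⟨(isUnit_C.2 (IsUnit.mk0 _ (inv_ne_zero hq0))).unit, rfl⟩
    have hb : IsBad a (Q * C Q.leadingCoeff⁻¹) := by
      rw [isBad_iff H, H.mem]
      exact ⟨monic_mul_leadingCoeff_inv hQ.ne_zero, hass.irreducible hQ,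
        (hass.symm.dvd).trans hd⟩
    have h1 := hodd _ hb
    rwa [natDegree_mul_C (inv_ne_zero hq0)] at h1
  have o1 : ∀ s : Tau a, Odd (QQ a s).natDegree := fun s => hodd _ ((isBad_iff H).2 s.2)
  have o2 : ∀ s : Tau (aE a g), Odd (QQ (aE a g) s).natDegree := fun s =>
    hodd _ ((bad_const H hg0).1 ((isBad_iff Hg).2 s.2))
  have b1 : BaseT H R := base_of_fm H o1 ((nd_iff H R).1 hR.1)
  have b2 : BaseT Hg R := base_of_fm Hg o2 ((nd_iff Hg R).1 (by rw [aE_self]; exact hR.2 g hg))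
  refine le_trans ?_ (card_bad H hg Hg hN hodd' b1 b2 hm hmo)
  rw [Nat.cast_le]
  apply Set.ncard_le_ncard
  · rintro P ⟨⟨p1, p2, p3, p4, p5⟩, p6⟩
    refine ⟨p1, p2, p3, ?_, same_of H p5, ?_, fun h => p6 (full_of_fullL H h)⟩
    · intro h
      exact p4 ((isBad_iff H).2 (H.mem.2 ⟨p1, p2, h⟩))
    · exact same_of Hg fun Q hQ => p5 Q ((bad_const H hg0).1 hQ)
  · apply ((Irr k m : Finset k[X]).finite_toSet).subset
    rintro P ⟨h1, h2, h3, -⟩
    rw [Finset.mem_coe, mem_Irr]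
    exact ⟨h1, h2, h3.le⟩

/-- the number of the primes of a class -/
theorem main_class (R : k[X]) {m : ℕ} (hm : m.Prime) :
    (Nat.card k : ℝ) ^ m / 2 ^ Nat.card (Bad a) -
      2 * ((Del a).natDegree : ℝ) * Real.sqrt ((Nat.card k : ℝ) ^ m) - Nat.card k ≤
    (m : ℝ) * (((PrimesOf a R m).ncard : ℕ) : ℝ) := by
  haveI : Fact (Odd n) := ⟨H.hn⟩
  have h1 := card_class H Pool.Agent.Q24.GT.t_ORB Pool.Agent.Q24.GT.t_CLS hm R
  have h2 : Nat.card (Bad a) = Fintype.card (Tau a) := by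
    rw [← Nat.card_congr (bEq H), Nat.card_eq_fintype_card]
  have h3 : {P : k[X] | P.Monic ∧ Irreducible P ∧ P.natDegree = m ∧
      (¬ P ∣ Del a) ∧ SameC a P R} = PrimesOf a R m := by
    ext P
    constructor
    · rintro ⟨p1, p2, p3, p4, p5⟩
      exact ⟨p1, p2, p3, fun h => p4 (H.mem.1 ((isBad_iff H).1 h)).2.2, of_same H p5⟩
    · rintro ⟨p1, p2, p3, p4, p5⟩
      exact ⟨p1, p2, p3, fun h => p4 ((isBad_iff H).2 (H.mem.2 ⟨p1, p2, h⟩)), same_of H p5⟩
  rw [h3] at h1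
  refine le_trans ?_ h1
  rw [h2]
  have h4 := sum_deg H
  have h5 := mul_le_mul_of_nonneg_right (mul_le_mul_of_nonneg_left h4 (zero_le_two (α := ℝ)))
    (Real.sqrt_nonneg ((Nat.card k : ℝ) ^ m))
  linarith

omit H in
/-- there are few primes `m` for which `2` has a small order -/
theorem few (X K : ℕ) : {m : ℕ | m.Prime ∧ Odd m ∧ m ≤ X ∧ 2 ^ orderOf (2 : ZMod m) < m ^ K}.ncard ≤
    (K * (Nat.log 2 X + 1)) ^ 2 := by
  obtain ⟨B, hB⟩ : ∃ B, B = K * (Nat.log 2 X + 1) := ⟨_, rfl⟩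
  rw [← hB]
  obtain ⟨M, hM⟩ : ∃ M, M = ∏ o ∈ Finset.Ico 1 B, (2 ^ o - 1) := ⟨_, rfl⟩
  have hM0 : M ≠ 0 := by
    rw [hM]
    apply prod_ne_zero_iff.2
    intro o ho
    rw [mem_Ico] at ho
    have : 1 < 2 ^ o := Nat.one_lt_two_pow (by omega)
    omega
  have h1 : {m : ℕ | m.Prime ∧ Odd m ∧ m ≤ X ∧ 2 ^ orderOf (2 : ZMod m) < m ^ K} ⊆
      (M.primeFactors : Set ℕ) := by
    rintro m ⟨hp, ho, hX, hl⟩
    rw [Finset.mem_coe, Nat.mem_primeFactors]
    refine ⟨hp, ?_, hM0⟩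
    haveI : Fact m.Prime := ⟨hp⟩
    have h20 : (2 : ZMod m) ≠ 0 := by
      intro h
      have h2 : ((2 : ℕ) : ZMod m) = 0 := by exact_mod_cast h
      rw [ZMod.natCast_eq_zero_iff] at h2
      have h3 := (Nat.prime_dvd_prime_iff_eq hp Nat.prime_two).1 h2
      rw [h3] at ho
      exact absurd ho (by decide)
    have hpos : 0 < orderOf (2 : ZMod m) := by
      apply orderOf_pos_iff.2
      rw [isOfFinOrder_iff_pow_eq_one]
      exact ⟨m - 1, by have := hp.two_le; omega, ZMod.pow_card_sub_one_eq_one h20⟩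
    have hlt : orderOf (2 : ZMod m) < B := by
      by_contra hcon
      push Not at hcon
      have h3 : m < 2 ^ (Nat.log 2 X + 1) := lt_of_le_of_lt hX (Nat.lt_pow_succ_log_self (by norm_num) X)
      have h4 : m ^ K ≤ (2 ^ (Nat.log 2 X + 1)) ^ K := Nat.pow_le_pow_left h3.le K
      rw [← pow_mul, mul_comm, ← hB] at h4
      have h5 : 2 ^ B ≤ 2 ^ orderOf (2 : ZMod m) := Nat.pow_le_pow_right (by norm_num) hcon
      omega
    have hdvd : m ∣ 2 ^ orderOf (2 : ZMod m) - 1 := by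
      rw [← ZMod.natCast_eq_zero_iff, Nat.cast_sub Nat.one_le_two_pow]
      push_cast
      rw [pow_orderOf_eq_one, sub_self]
    rw [hM]
    exact hdvd.trans (dvd_prod_of_mem (fun o => 2 ^ o - 1) (mem_Ico.2 ⟨hpos, hlt⟩))
  refine (Set.ncard_le_ncard h1 (Finset.finite_toSet _)).trans ?_
  rw [Set.ncard_coe_finset]
  have h2 : 2 ^ M.primeFactors.card ≤ M := by
    have h3 : ∏ p ∈ M.primeFactors, 2 ≤ ∏ p ∈ M.primeFactors, p :=
      prod_le_prod' fun p hp => (Nat.prime_of_mem_primeFactors hp).two_le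
    rw [prod_const] at h3
    exact h3.trans (Nat.le_of_dvd (Nat.pos_of_ne_zero hM0) (Nat.prod_primeFactors_dvd M))
  have h3 : M ≤ 2 ^ (B ^ 2) := by
    rw [hM]
    have h4 : ∏ o ∈ Finset.Ico 1 B, (2 ^ o - 1) ≤ ∏ o ∈ Finset.Ico 1 B, 2 ^ B := by
      apply prod_le_prod'
      intro o ho
      rw [mem_Ico] at ho
      exact (Nat.sub_le _ _).trans (Nat.pow_le_pow_right (by norm_num) ho.2.le)
    rw [prod_const, Nat.card_Ico, ← pow_mul] at h4
    refine h4.trans (Nat.pow_le_pow_right (by norm_num) ?_)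
    rw [sq]
    exact Nat.mul_le_mul_left B (Nat.sub_le _ _)
  exact (Nat.pow_le_pow_iff_right (by norm_num)).1 (h2.trans h3)

end Pool.Agent.Q269.GT
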