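import Pool.Agent.Q269.GT.Ft

/-!
# The number of the primes
-/

set_option autoImplicit false
set_option linter.all false

open scoped Classical
open Polynomial Module

namespace Pool.Agent.Q269.GT

open Finset
open Pool.Agent.H341R2.Sharp
open Pool.Agent.Y164.HG
open Pool.Agent.Y164.PS (L ch lam_mem L_C ch_mul ch_eq_zero_iff L_mul_left coprime_C
  coprime_of_not_dvd L_of_not_coprime lam_eq_zero_iff Fam L_comm L_neg_left)

variable {k E : Type} [Field k] [Fintype k] [DecidableEq k] [Field E] [Fintype E] [DecidableEq E]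
  [Algebra k E]
variable {n : ℕ} [Fact (Odd n)] {a : Fin n → k[X]} {N : ℕ} (H : Geo a N)

/-- extensions of every degree -/
theorem exists_ext (hk : ringChar k ≠ 2) (m : ℕ) (hm : 1 ≤ m) : ∃ (E : Type) (_ : Field E)
    (_ : Fintype E) (_ : DecidableEq E) (_ : Algebra k E), finrank k E = m := by
  obtain ⟨-, E, i1, i2, i3, i4, h, -⟩ := T_bound (F := k) hk (f := X) monic_X (by rw [natDegree_X])
    (by
      intro c h he
      have h1 := congrArg natDegree he
      have hc : c ≠ 0 := by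
        rintro rfl
        rw [C_0, zero_mul] at he
        exact X_ne_zero he
      rw [natDegree_X, natDegree_C_mul hc, natDegree_pow] at h1
      omega) m hm
  exact ⟨E, i1, i2, i3, i4, h⟩

/-- two polynomials in the same class -/
def SameC (a : Fin n → k[X]) (P R : k[X]) : Prop := ∀ s : Tau a, L P (QQ a s) = L R (QQ a s)

theorem sP_congr {P R : k[X]} (h : SameC a P R) : sP H P = sP H R := by
  funext s
  rw [sP, sP, h s]

theorem base_congr {P R : k[X]} (h : SameC a P R) : BaseT H P ↔ BaseT H R := by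
  unfold BaseT
  rw [sP_congr H h]
  have h1 : (fun (_ : Unit) s => L P (QQ a s)) = fun (_ : Unit) s => L R (QQ a s) := by
    funext _ s
    exact h s
  rw [h1]

theorem Cm_congr {P R : k[X]} (h : SameC a P R) : Cm H P = Cm H R := by
  apply LinearMap.ext
  intro w
  show ∑ r, L P (QQ a r) • (om w ((H.dat (sP H P)).t r) • (H.dat (sP H P)).t r) +
    (H.dat (sP H P)).ks w = ∑ r, L R (QQ a r) • (om w ((H.dat (sP H R)).t r) • (H.dat (sP H R)).t r) +
    (H.dat (sP H R)).ks w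
  rw [sP_congr H h, sum_congr rfl fun r _ => by rw [h r]]

/-- the symbols of a root -/
theorem sg_eq (hk : ringChar k ≠ 2) {θ : E} (hm : (minpoly k θ).natDegree = finrank k E) (j : ℕ) :
    sg k θ j = SP (minpoly k θ) j := by
  have hint : IsIntegral k θ := IsIntegral.of_finite k θ
  have h1 := ch_aeval (E := E) hk (minpoly.monic hint) (minpoly.irreducible hint)
    (minpoly.aeval k θ) (X - X ^ (Nat.card k ^ j))
  rw [hm, Nat.div_self finrank_pos, Nat.cast_one, one_mul, map_sub, map_pow, aeval_X] at h1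
  rw [SP, ← h1, sg]
  by_cases h0 : θ - θ ^ (Nat.card k ^ j) = 0
  · rw [h0, if_pos IsSquare.zero]
    simp [ch]
  · by_cases h2 : IsSquare (θ - θ ^ (Nat.card k ^ j))
    · rw [if_pos h2, (ch_eq_zero_iff h0).2 h2]
    · rw [if_neg h2]
      exact (F2_ne_zero fun h => h2 ((ch_eq_zero_iff h0).1 h)).symm

/-- exceptional for a polynomial -/
def Exc (p : F2[X]) (P : k[X]) : Prop := ∃ ξ : AlgebraicClosure F2, ξ ^ P.natDegree = 1 ∧ ξ ≠ 1 ∧
  aeval (∑ j ∈ range P.natDegree, algebraMap F2 (AlgebraicClosure F2) (SP P j) * (ξ ^ j + 1)) p = 0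

theorem nonEx_iff {P R : k[X]} (h : SameC a P R) : NonEx H P ↔ ¬ Exc (Cm H R).charpoly P := by
  unfold NonEx Exc
  rw [Cm_congr H h]
  push Not
  rfl

theorem minpoly_deg {m : ℕ} (hm : m.Prime) (hE : finrank k E = m) {θ : E}
    (hθ : θ ∉ Set.range (algebraMap k E)) : (minpoly k θ).natDegree = m := by
  have h1 : (minpoly k θ).natDegree ∣ m := by
    rw [← hE]
    exact minpoly.degree_dvd (IsIntegral.of_finite k θ)
  rcases (Nat.dvd_prime hm).1 h1 with h | h
  · exact absurd (minpoly.natDegree_eq_one_iff.1 h) hθ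
  · exact h

/-- the number of the exceptional primes -/
theorem card_exc (hORB : S_ORB) (hEXC : S_EXC) (hk : ringChar k ≠ 2) (hm1 : IsSquare (-1 : k))
    {m : ℕ} (hm : m.Prime) (hmo : Odd m) {p : F2[X]} (hp : p ≠ 0) :
    (m : ℝ) * (({P : k[X] | P.Monic ∧ Irreducible P ∧ P.natDegree = m ∧ Exc p P}.ncard : ℕ) : ℝ) ≤
      3 * m * p.natDegree * (Nat.card k : ℝ) ^ m / 2 ^ (orderOf (2 : ZMod m) / 4) := by
  obtain ⟨E, i1, i2, i3, i4, hE⟩ := exists_ext (k := k) hk m hm.one_le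
  haveI : NeZero m := ⟨hm.ne_zero⟩
  have h1 := hORB k E m hm hE {P | Exc p P}
  have h2 := hEXC k E m hk hm1 hm hmo hE p hp
  have h3 : ((m * {P : k[X] | P.Monic ∧ Irreducible P ∧ P.natDegree = m ∧ Exc p P}.ncard : ℕ) : ℝ) =
      (({θ : E | θ ∉ Set.range (algebraMap k E) ∧ minpoly k θ ∈ {P | Exc p P}}.ncard : ℕ) : ℝ) := by
    rw [h1]
    rfl
  rw [Nat.cast_mul] at h3
  rw [h3]
  refine le_trans ?_ h2
  rw [Nat.cast_le]
  apply Set.ncard_le_ncard _ (Set.toFinite _)
  rintro θ ⟨h4, ξ, h5, h6, h7⟩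
  have hd := minpoly_deg hm hE h4
  refine ⟨h4, ξ, by rw [← hd]; exact h5, h6, ?_⟩
  rw [hd] at h7
  have h8 : (∑ j : ZMod m, algebraMap F2 (AlgebraicClosure F2) (sg k θ j.val) * (ξ ^ j.val + 1)) =
      ∑ j ∈ range m, algebraMap F2 (AlgebraicClosure F2) (SP (minpoly k θ) j) * (ξ ^ j + 1) := by
    rw [sum_val m fun j => algebraMap F2 (AlgebraicClosure F2) (sg k θ j) * (ξ ^ j + 1)]
    exact sum_congr rfl fun j _ => by rw [sg_eq hk (by rw [hd, hE])]
  rw [h8]
  exact h7

include H in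
/-- the number of the primes of a class -/
theorem card_class (hORB : S_ORB) (hCLS : S_CLS) {m : ℕ} (hm : m.Prime)
    (R : k[X]) :
    (Nat.card k : ℝ) ^ m / 2 ^ Fintype.card (Tau a) -
      2 * (∑ s : Tau a, ((QQ a s).natDegree : ℝ)) * Real.sqrt ((Nat.card k : ℝ) ^ m) - Nat.card k ≤
    (m : ℝ) * (({P : k[X] | P.Monic ∧ Irreducible P ∧ P.natDegree = m ∧
      (¬ P ∣ Del a) ∧ SameC a P R}.ncard : ℕ) : ℝ) := by
  obtain ⟨E, i1, i2, i3, i4, hE⟩ := exists_ext (k := k) H.hk m hm.one_le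
  haveI : NeZero m := ⟨hm.ne_zero⟩
  have h1 := hORB k E m hm hE {P | (¬ P ∣ Del a) ∧ SameC a P R}
  have h2 := hCLS k E H.hk (Tau a) (QQ a) (fun s => ⟨H.fam.mon s, H.fam.irr s⟩) H.fam.inj
    (fun s => L R (QQ a s))
  have hcE : (Nat.card E : ℝ) = (Nat.card k : ℝ) ^ m := by
    rw [← hE, Nat.card_eq_fintype_card, Nat.card_eq_fintype_card, Module.card_eq_pow_finrank (K := k)]
    push_cast
    rfl
  rw [hcE] at h2
  have h3 : ((m * {P : k[X] | P.Monic ∧ Irreducible P ∧ P.natDegree = m ∧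
      (¬ P ∣ Del a) ∧ SameC a P R}.ncard : ℕ) : ℝ) =
      (({θ : E | θ ∉ Set.range (algebraMap k E) ∧ minpoly k θ ∈ {P | (¬ P ∣ Del a) ∧
        SameC a P R}}.ncard : ℕ) : ℝ) := by
    rw [h1]
    rfl
  rw [Nat.cast_mul] at h3
  rw [h3]
  have h4 : {θ : E | ∀ s, aeval θ (QQ a s) ≠ 0 ∧ (IsSquare (aeval θ (QQ a s)) ↔
      L R (QQ a s) = 0)}.ncard ≤ {θ : E | θ ∉ Set.range (algebraMap k E) ∧
        minpoly k θ ∈ {P | (¬ P ∣ Del a) ∧ SameC a P R}}.ncard + Nat.card k := by
    have h5 : {θ : E | ∀ s, aeval θ (QQ a s) ≠ 0 ∧ (IsSquare (aeval θ (QQ a s)) ↔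
        L R (QQ a s) = 0)} ⊆ {θ : E | θ ∉ Set.range (algebraMap k E) ∧
        minpoly k θ ∈ {P | (¬ P ∣ Del a) ∧ SameC a P R}} ∪ Set.range (algebraMap k E) := by
      intro θ hθ
      by_cases h6 : θ ∈ Set.range (algebraMap k E)
      · exact Or.inr h6
      left
      have hd := minpoly_deg hm hE h6
      have hint : IsIntegral k θ := IsIntegral.of_finite k θ
      have hirr := minpoly.irreducible hint
      have hmon := minpoly.monic hint
      refine ⟨h6, ?_, fun s => ?_⟩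
      · intro h7
        have hmem : minpoly k θ ∈ bpF a := H.mem.2 ⟨hmon, hirr, h7⟩
        exact (hθ ⟨_, hmem⟩).1 (minpoly.aeval k θ)
      · obtain ⟨h8, h9⟩ := hθ s
        have h10 := ch_aeval (E := E) H.hk hmon hirr (minpoly.aeval k θ) (QQ a s)
        rw [hd, ← hE, Nat.div_self finrank_pos, Nat.cast_one, one_mul] at h10
        rw [L_comm H.hm, ← h10]
        have h11 : ∀ x y : F2, (x = 0 ↔ y = 0) → x = y := by decide
        apply h11
        rw [ch_eq_zero_iff h8]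
        exact h9
    refine (Set.ncard_le_ncard h5 (Set.toFinite _)).trans ((Set.ncard_union_le _ _).trans ?_)
    have h6 : (Set.range (algebraMap k E)).ncard = Nat.card k := by
      rw [← Set.image_univ, Set.ncard_image_of_injective _ (algebraMap k E).injective, Set.ncard_univ]
    rw [h6]
  have h5 : (({θ : E | ∀ s, aeval θ (QQ a s) ≠ 0 ∧ (IsSquare (aeval θ (QQ a s)) ↔
      L R (QQ a s) = 0)}.ncard : ℕ) : ℝ) ≤ (({θ : E | θ ∉ Set.range (algebraMap k E) ∧
        minpoly k θ ∈ {P | (¬ P ∣ Del a) ∧ SameC a P R}}.ncard : ℕ) : ℝ) + Nat.card k := by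
    exact_mod_cast h4
  linarith

end Pool.Agent.Q269.GT
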