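import Pool.Agent.Q269.GT.Tri

/-!
# The decomposition of the prime and the kernels over all the extensions
-/

set_option autoImplicit false
set_option linter.all false

open scoped Classical
open Polynomial Module

namespace Pool.Agent.Q269.GT

open Finset
open Pool.Agent.H341R2.Sharp
open Pool.Agent.Y164.HG
open Pool.Agent.Y164.PS (L ch lam_mem L_C ch_mul ch_eq_zero_iff L_mul_left coprime_C
  coprime_of_not_dvd L_of_not_coprime lam_eq_zero_iff Fam L_comm L_neg_left)

theorem prod_val {M : Type} [CommMonoid M] (m : ℕ) [NeZero m] (f : ℕ → M) :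
    ∏ i : ZMod m, f i.val = ∏ i ∈ range m, f i := by
  refine prod_nbij' (fun i => i.val) (fun j => (j : ZMod m)) (fun i _ => mem_range.2 (ZMod.val_lt i))
    (fun j _ => mem_univ _) (fun i _ => ZMod.natCast_zmod_val i)
    (fun j hj => ZMod.val_cast_of_lt (mem_range.1 hj)) fun i _ => rfl

theorem sum_val {M : Type} [AddCommMonoid M] (m : ℕ) [NeZero m] (f : ℕ → M) :
    ∑ i : ZMod m, f i.val = ∑ i ∈ range m, f i := by
  refine sum_nbij' (fun i => i.val) (fun j => (j : ZMod m)) (fun i _ => mem_range.2 (ZMod.val_lt i))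
    (fun j _ => mem_univ _) (fun i _ => ZMod.natCast_zmod_val i)
    (fun j hj => ZMod.val_cast_of_lt (mem_range.1 hj)) fun i _ => rfl

variable {k E : Type} [Field k] [Fintype k] [DecidableEq k] [Field E] [Fintype E] [DecidableEq E]
  [Algebra k E]
variable {n : ℕ} [Fact (Odd n)] {a : Fin n → k[X]} {N : ℕ} (H : Geo a N)
variable {c : E} (H' : Geo (aE a c) N) (ε : Tau (aE a c) ≃ Tau a)
  (hε : ∀ s, QQ (aE a c) s = (QQ a (ε s)).map (algebraMap k E))

/-- a decomposition into primes with trivial kernel -/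
def Fin' (P : k[X]) : Prop := ∃ (ι : Type) (_ : Fintype ι) (T : ι → E[X]), (∀ i, (T i).Monic) ∧
  (∀ i, Irreducible (T i)) ∧ Function.Injective T ∧ ∏ i, T i = P.map (algebraMap k E) ∧
  Odd (Fintype.card ι) ∧ (∀ i, Odd (T i).natDegree) ∧ TrivE H' T

/-- the roots as primes -/
theorem roots_dec (hSPL : S_SPL) {P : k[X]} (hP : P.Monic) (hi : Irreducible P)
    [NeZero P.natDegree] {θ : E} (hθ : aeval θ P = 0) :
    Function.Injective (fun i : ZMod P.natDegree => X - C (θ ^ (Nat.card k ^ i.val))) ∧
    ∏ i : ZMod P.natDegree, (X - C (θ ^ (Nat.card k ^ i.val))) = P.map (algebraMap k E) := by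
  obtain ⟨h1, h2⟩ := hSPL k E P θ hP hi hθ
  constructor
  · intro i j hij
    have h3 : θ ^ (Nat.card k ^ i.val) = θ ^ (Nat.card k ^ j.val) := by
      have h4 : (X - C (θ ^ (Nat.card k ^ i.val)) : E[X]) = X - C (θ ^ (Nat.card k ^ j.val)) := hij
      exact C_injective (sub_right_injective h4)
    have h5 := (h2 _ _).1 h3
    apply ZMod.val_injective
    exact Nat.ModEq.eq_of_lt_of_lt h5 (ZMod.val_lt i) (ZMod.val_lt j)
  · rw [h1]
    exact prod_val P.natDegree fun i => (X - C (θ ^ (Nat.card k ^ i)) : E[X])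

include H hε in
/-- extensions of even degree -/
theorem fin_even (hIRR : S_IRR) (hSPL : S_SPL) (hROOT : S_ROOT) (hEVN : S_EVN) (hc : c ≠ 0)
    (hns : ¬ IsSquare c) (he : Even (finrank k E)) (hodd : ∀ s, Odd (QQ a s).natDegree)
    (hN : Even N) {P : k[X]} (hP : P.Monic) (hi : Irreducible P) (hm : P.natDegree.Prime)
    (hmo : Odd P.natDegree) : Fin' H' P := by
  have e0 : (finrank k E : F2) = 0 := (ZMod.natCast_eq_zero_iff_even).2 he
  by_cases hd : P.natDegree ∣ finrank k E
  · haveI : NeZero P.natDegree := ⟨hm.ne_zero⟩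
    obtain ⟨θ, hθ⟩ := hROOT k E P hi hd
    obtain ⟨h1, h2⟩ := roots_dec hSPL hP hi hθ
    have hcard : Fintype.card (ZMod P.natDegree) = P.natDegree := ZMod.card _
    have e1 : ((finrank k E / P.natDegree : ℕ) : F2) = 0 := by
      rw [ZMod.natCast_eq_zero_iff_even]
      obtain ⟨r, hr⟩ := hd
      rw [hr, Nat.mul_div_cancel_left _ hm.pos]
      rw [hr, Nat.even_mul] at he
      rcases he with h | h
      · exact absurd hmo (Nat.not_odd_iff_even.2 h)
      · exact h
    refine ⟨ZMod P.natDegree, inferInstance, fun i => X - C (θ ^ (Nat.card k ^ i.val)),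
      fun i => monic_X_sub_C _, fun i => irreducible_X_sub_C _, h1, h2, by rwa [hcard],
      fun i => by rw [natDegree_X_sub_C]; exact odd_one, ?_⟩
    refine triv_even H H' ε hε hEVN hc hns he hodd hN (by rwa [hcard]) (fun i j => ?_) (fun i s => ?_)
      fun i => by rw [natDegree_X_sub_C]; exact odd_one
    · rw [AT, L_conj hSPL H.hk H.hm hP hi hθ, e1, zero_mul]
    · rw [BT, hε, L_conj_bad hSPL H.hk H.hm hP hi (root_conj P hθ _), e1, zero_mul]
  · have hco : Nat.Coprime P.natDegree (finrank k E) := (Nat.Prime.coprime_iff_not_dvd hm).2 hd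
    refine ⟨Unit, inferInstance, fun _ => P.map (algebraMap k E), fun _ => hP.map _,
      fun _ => hIRR k E P hi hco, fun _ _ _ => rfl, by simp, by simp,
      fun _ => by rwa [natDegree_map], ?_⟩
    refine triv_even H H' ε hε hEVN hc hns he hodd hN (by simp) (fun i j => ?_) (fun i s => ?_)
      fun i => by rwa [natDegree_map]
    · rw [AT, L_map H.hk, e0, zero_mul]
    · rw [BT, hε, L_map H.hk, e0, zero_mul]

include H hε in
/-- extensions of odd degree -/
theorem fin_odd (hIRR : S_IRR) (hSPL : S_SPL) (hROOT : S_ROOT) (hRLB : S_RLB) (hCYC : S_CYC)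
    (hCHP : S_CHP) (hc : c ≠ 0)
    (hc0 : ch c = 0) (he : Odd (finrank k E)) {P : k[X]} (hP : P.Monic) (hi : Irreducible P)
    (hm : P.natDegree.Prime) (hmo : Odd P.natDegree) (hB : BaseT H P) (hNE : NonEx H P) :
    Fin' H' P := by
  have e0 : (finrank k E : F2) = 1 := (ZMod.natCast_eq_one_iff_odd).2 he
  have hLPP : L P P = 0 := L_of_not_coprime hi.ne_zero fun h => hi.not_isUnit (isCoprime_self.1 h)
  by_cases hd : P.natDegree ∣ finrank k E
  · haveI : NeZero P.natDegree := ⟨hm.ne_zero⟩
    obtain ⟨θ, hθ⟩ := hROOT k E P hi hd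
    obtain ⟨h1, h2⟩ := roots_dec hSPL hP hi hθ
    have hcard : Fintype.card (ZMod P.natDegree) = P.natDegree := ZMod.card _
    have e1 : ((finrank k E / P.natDegree : ℕ) : F2) = 1 := by
      rw [ZMod.natCast_eq_one_iff_odd]
      obtain ⟨r, hr⟩ := hd
      rw [hr, Nat.mul_div_cancel_left _ hm.pos]
      rw [hr, Nat.odd_mul] at he
      exact he.2
    have hA : ∀ i j : ZMod P.natDegree, L (X - C (θ ^ (Nat.card k ^ i.val)))
        (X - C (θ ^ (Nat.card k ^ j.val))) = SP P (j - i).val := by
      intro i j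
      rw [L_conj hSPL H.hk H.hm hP hi hθ, e1, one_mul]
    have hev : ∀ i : ZMod P.natDegree, SP P (-i).val = SP P i.val := by
      intro i
      have g1 := hA 0 i
      have g2 := hA i 0
      rw [sub_zero] at g1
      rw [zero_sub] at g2
      rw [← g1, ← g2]
      have h6 : IsSquare (-1 : E) := by
        have := H.hm.map (algebraMap k E)
        rwa [map_neg, map_one] at this
      exact L_comm h6 _ _
    refine ⟨ZMod P.natDegree, inferInstance, fun i => X - C (θ ^ (Nat.card k ^ i.val)),
      fun i => monic_X_sub_C _, fun i => irreducible_X_sub_C _, h1, h2, by rwa [hcard],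
      fun i => by rw [natDegree_X_sub_C]; exact odd_one, ?_⟩
    refine triv_odd H H' ε hε hRLB hc hc0 he (P := P) (Equiv.refl _)
      (A := fun i j : ZMod P.natDegree => SP P (j - i).val) (by rwa [hcard])
      (fun i j => hA i j) (fun i s => ?_)
      (fun i => by rw [natDegree_X_sub_C]; exact odd_one) ?_
    · rw [BT, hε, L_conj_bad hSPL H.hk H.hm hP hi (root_conj P hθ _), e1, one_mul]
    · refine hCYC (EW n) (Tau a) (H.dat (sP H P)) P.natDegree hmo (fun i => SP P i.val) hev
        (fun s => L P (QQ a s)) hB fun w hw1 hw2 => ?_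
      refine hCHP (EW n) P.natDegree hmo (fun i => SP P i.val) hev (Cm H P) (fun ξ hξ hξ1 => ?_) w hw1
        fun i => ?_
      · have h3 := hNE ξ hξ hξ1
        rw [← sum_val P.natDegree fun j => algebraMap F2 (AlgebraicClosure F2) (SP P j) * (ξ ^ j + 1)]
          at h3
        exact h3
      · have h3 := hw2 i
        rw [add_assoc] at h3
        exact h3
  · have hco : Nat.Coprime P.natDegree (finrank k E) := (Nat.Prime.coprime_iff_not_dvd hm).2 hd
    refine ⟨Unit, inferInstance, fun _ => P.map (algebraMap k E), fun _ => hP.map _,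
      fun _ => hIRR k E P hi hco, fun _ _ _ => rfl, by simp, by simp,
      fun _ => by rwa [natDegree_map], ?_⟩
    refine triv_odd H H' ε hε hRLB hc hc0 he (P := P) (Equiv.refl Unit)
      (A := fun (_ _ : Unit) => (0 : F2)) (by simp) (fun i j => ?_) (fun i s => ?_)
      (fun i => by rwa [natDegree_map]) hB
    · rw [AT, L_map H.hk, hLPP, mul_zero]
    · rw [BT, hε, L_map H.hk, e0, one_mul]

end Pool.Agent.Q269.GT
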