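import Mathlib
import Pool.Agent.Y713.SE.Bas
import Pool.Agent.Y713.SE.StmT

/-!
Statements of lemmas (project GT, third part): descent of divisor classes along a quadratic extension of
the field of constants.

`Dat 2 n K` are the data of the curve `y ^ 2 = δ ∏ (x - e i)` over `K`, `D.A` its affine coordinate ring (a
Dedekind domain, `Pool.Agent.Y713.SE`), `D.base L` the same curve over `L`, `cl I` the class of an ideal,
`clm φ` the homomorphism of the class groups given by an injective homomorphism of the rings.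
-/

set_option autoImplicit false
set_option linter.all false

open scoped Classical
open Polynomial Module

namespace Pool.Agent.Q269.GT

open Pool.Agent.Y713.SE
open Pool.Agent.Y713.Jac (J)

/-- GT-GEN: the product of an ideal class with its conjugate under an involution comes from the
fixed ring.

Proof. Let `x = cl I`, `I ≠ ⊥` (`exists_cl`), and `M = I * I.map θ`. Then `M ≠ ⊥` and `M.map θ = M` because
`θ θ = id`, so `θ m ∈ M` for `m ∈ M`. Let `N = M.comap φ` and `h` the inverse of 2 in `A` (`θ h = h`). Claim: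
`N.map φ = M`. The inclusion `⊆` is clear. For `m ∈ M` one has
`m = h (m + θ m) + s (t h (m - θ m))`. The element `h (m + θ m)` of `M` is fixed by `θ`, so it is `φ b` with
`b ∈ N`. From `s t = 1` and `θ s = -s` it follows that `θ t = -t`, so `t h (m - θ m)`, an element of `M`, is
fixed by `θ` too. This proves the claim; `N ≠ ⊥` since `M ≠ ⊥`. So `u = cl N` satisfies
`clm φ u = cl (N.map φ) = cl M = cl I * cl (I.map θ)` (`clm_cl`, `cl_mul`, `map_ne`). -/
def S_GEN : Prop := ∀ (A B : Type) [CommRing A] [IsDomain A] [IsDedekindDomain A] [CommRing B]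
  [IsDomain B] [IsDedekindDomain B] (φ : B →+* A) (hφ : Function.Injective φ) (θ : A ≃+* A),
  (∀ x, θ (θ x) = x) → (∀ b, θ (φ b) = φ b) → (∀ x, θ x = x → ∃ b, φ b = x) →
  ∀ s t : A, s * t = 1 → θ s = -s → IsUnit (2 : A) → ∀ x : ClassGroup A, ∃ u : ClassGroup B,
    clm φ hφ u = x * clm (θ : A →+* A) θ.injective x

/-- the twist of the data by the constant `c` -/
noncomputable def tws {n : ℕ} {K : Type} [Field K] (D : Dat 2 n K) {c : K} (hc : c ≠ 0) :
    Dat 2 n K where
  hp := D.hp
  hne := D.hne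
  ζ := D.ζ
  hζ := D.hζ
  δ := c * D.δ
  hδ := mul_ne_zero hc D.hδ
  e := D.e
  he := D.he
  hn := D.hn

/-- GT-DSQ: over a quadratic extension `L = K(s)`, `s ^ 2 = c`, the squares of the classes are products
of the classes from `K` of the curve and of its twist by `c`. (Prove `theorem t_DSQ (h : S_GEN) : S_DSQ`.)

Proof. Let `A = (D.base L).A`, with the basis `1, y` over `L[X]`. `θ₁ = D.mp σ` is the involution of `A` which
acts by `σ` on the coefficients and fixes `y` (`mp_alg`, `mp_y`), and `θ₂` is `θ₁` composed with the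
automorphism `(D.base L).s 1`, `y ↦ -y` (the primitive square root of one is `-1`).
`φ₁ : D.A → A` is given by `K[X] → L[X]`, `y ↦ y`; `φ₂ : (tws D hc).A → A` by `K[X] → L[X]`, `y ↦ s y`
(`(s y) ^ 2 = c f`). Both are injective. An element `a + b y`, `a b ∈ L[X]`, is fixed by `θ₁` iff the
coefficients of `a` and `b` are fixed by `σ`, that is iff `a, b` come from `K[X]`; it is fixed by `θ₂` iff `a`
comes from `K[X]` and `σ b = -b`, that is iff `a` and `b / s` come from `K[X]`. So `S_GEN` applies to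
`(A, D.A, φ₁, θ₁)` and `(A, (tws D hc).A, φ₂, θ₂)` with the unit `s` (inverse `s / c`): for `x` in the class
group of `A` there are `u`, `v` with `clm φ₁ u = x * clm θ₁ x`, `clm φ₂ v = x * clm θ₂ x`. Finally
`clm θ₂ x = clm θ₁ (sC x)` and `sC x = x⁻¹` (`Pool.Agent.Y164.HG.sC_inv` in `Pool.Agent.Y164.HG.Rk`, or
`prod_sC`), so the product of the two equations is `x ^ 2`. -/
def S_DSQ : Prop := ∀ (n : ℕ) (K L : Type) [Field K] [Field L] [Algebra K L] (D : Dat 2 n K)
  (σ : L ≃ₐ[K] L), (∀ x, σ x = x → ∃ y, algebraMap K L y = x) → (∀ x, σ (σ x) = x) →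
  ∀ (s : L) (c : K) (hc : c ≠ 0), s ^ 2 = algebraMap K L c → σ s = -s →
    ∃ (φ₁ : ClassGroup D.A →* ClassGroup (D.base L).A)
      (φ₂ : ClassGroup (tws D hc).A →* ClassGroup (D.base L).A),
      ∀ x, ∃ u v, x ^ 2 = φ₁ u * φ₂ v

/-- GT-ISO: the substitution `x ↦ u x`, `y ↦ v y`.

Proof. Let `F'`, `G'` be the images of `F`, `G` in `L[X]`; `F'(u X) = v ^ 2 G'(X)`. The coordinate rings are
`AdjoinRoot (X ^ 2 - C F')` and `AdjoinRoot (X ^ 2 - C G')`. The homomorphism of the first to the second
given by `X ↦ u X` on `L[X]` and `y ↦ v y` is well defined, since `(v y) ^ 2 = v ^ 2 G'(X) = F'(u X)`, and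
`X ↦ u⁻¹ X`, `y ↦ v⁻¹ y` is its inverse. An isomorphism of rings gives an isomorphism of the Picard groups
(`CommRing.Pic.mapRingHom`; compare `mapRH_bij` in `Pool.Agent.Y713.SE.StmT`). -/
def S_ISO : Prop := ∀ (K₁ K₂ L : Type) [Field K₁] [Field K₂] [Field L] [Algebra K₁ L] [Algebra K₂ L]
  (F : K₁[X]) (G : K₂[X]) (u v : L), u ≠ 0 → v ≠ 0 →
  (F.map (algebraMap K₁ L)).comp (C u * X) = C (v ^ 2) * G.map (algebraMap K₂ L) →
  Nonempty (J 2 F L ≃* J 2 G L)

/-- GT-FLD: a quadratic extension of the finite field of constants of a field of rational functions.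

Proof. The algebra structure is `IsFractionRing.lift` of the injective homomorphism
`k₁[X] → k₂[X] → K₂`. Let `q` be the order of `k₁` and `τ` the automorphism `x ↦ x ^ q` of `k₂` over `k₁`;
`τ τ = id` since `k₂` has `q ^ 2` elements, and its fixed points are the image of `k₁` (the `q` roots of
`x ^ q = x`; or: the extension is Galois with a group of order 2). `σ` is the extension to `K₂` of the
automorphism of `k₂[X]` given by `τ` on the coefficients (`IsFractionRing.ringEquivOfRingEquiv` or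
`IsFractionRing.fieldEquivOfRingEquiv`). If `σ x = x`, `x = a / b`, then `x = a σ(b) / (b σ(b))` where
`b σ(b)` is fixed by `τ`, so comes from `k₁[X]`, hence `a σ(b) = x b σ(b)` is fixed too and comes from
`k₁[X]`. Let `g` be a nonsquare of `k₁` (`FiniteField.exists_nonsquare`). It is a square `s ^ 2` in `k₂`
because `g ^ ((q ^ 2 - 1) / 2) = (g ^ ((q - 1) / 2)) ^ (q + 1) = (-1) ^ (q + 1) = 1`
(`FiniteField.isSquare_iff`), and `τ s = s ^ q = s (s ^ 2) ^ ((q - 1) / 2) = s g ^ ((q - 1) / 2) = -s`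
(or: `(τ s) ^ 2 = s ^ 2`, so `τ s = ± s`, and `τ s = s` would put `s` in `k₁`). -/
def S_FLD : Prop := ∀ (k₁ k₂ K₁ K₂ : Type) [Field k₁] [Finite k₁] [Field k₂] [Finite k₂]
  [Algebra k₁ k₂] [Field K₁] [Algebra k₁[X] K₁] [IsFractionRing k₁[X] K₁] [Field K₂]
  [Algebra k₂[X] K₂] [IsFractionRing k₂[X] K₂], ringChar k₁ ≠ 2 → finrank k₁ k₂ = 2 →
  ∃ (_ : Algebra K₁ K₂) (σ : K₂ ≃ₐ[K₁] K₂) (g : k₁) (s : k₂),
    (∀ p : k₁[X], algebraMap K₁ K₂ (algebraMap k₁[X] K₁ p) =
      algebraMap k₂[X] K₂ (p.map (algebraMap k₁ k₂))) ∧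
    (∀ x, σ x = x → ∃ y, algebraMap K₁ K₂ y = x) ∧ (∀ x, σ (σ x) = x) ∧
    ¬ IsSquare g ∧ s ^ 2 = algebraMap k₁ k₂ g ∧
    σ (algebraMap k₂[X] K₂ (C s)) = -algebraMap k₂[X] K₂ (C s)

/-- GT-SUB: a finite extension of even degree of finite fields contains a subextension of
codimension 2.

Proof. `E / k` is Galois with a group of order `finrank k E` (`IsGalois.card_aut_eq_finrank`), which is even,
so it contains an element of order 2 (`exists_prime_orderOf_dvd_card'`). Let `H` be the subgroup generated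
by it and `E₁ = IntermediateField.fixedField H`; `finrank E₁ E = Nat.card H = 2`
(`IntermediateField.finrank_fixedField_eq_card`). -/
def S_SUB : Prop := ∀ (k E : Type) [Field k] [Finite k] [Field E] [Finite E] [Algebra k E],
  Even (finrank k E) → ∃ (E₁ : Type) (_ : Field E₁) (_ : Finite E₁) (_ : Algebra k E₁)
    (_ : Algebra E₁ E) (_ : IsScalarTower k E₁ E), finrank E₁ E = 2

end Pool.Agent.Q269.GT
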