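import Pool.Agent.Q269.GT.Bd2
import Pool.Agent.Q269.GT.Stm3

/-!
# Divisibility over all the extensions
-/

set_option autoImplicit false
set_option linter.all false

open scoped Classical
open Polynomial Module

namespace Pool.Agent.Q269.GT

open Pool.Agent.Y713.SE
open Pool.Agent.Y713.Jac (J ShaPrimaryTrivial)

/-- a power of every element is infinitely divisible by 2 -/
def Dvg (G : Type) [CommGroup G] : Prop :=
  ∃ e : ℕ, ∀ (N : ℕ) (x : G), ∃ y : G, x ^ 2 ^ e = y ^ 2 ^ N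

theorem dvg_of_good {G : Type} [CommGroup G] (h : ∀ x : G, ∃ t y : G, t ^ 2 = 1 ∧ x = t * y ^ 2) :
    Dvg G := by
  refine ⟨1, fun N => ?_⟩
  induction N with
  | zero => exact fun x => ⟨x ^ 2, by rw [pow_one, pow_zero, pow_one]⟩
  | succ N ih =>
    intro x
    obtain ⟨t, y, h1, h2⟩ := h x
    obtain ⟨z, hz⟩ := ih y
    refine ⟨z, ?_⟩
    rw [pow_one] at hz ⊢
    rw [h2, mul_pow, h1, one_mul, hz, ← pow_mul, ← pow_succ]

theorem dvg_equiv {G H : Type} [CommGroup G] [CommGroup H] (f : G ≃* H) (h : Dvg G) : Dvg H := by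
  obtain ⟨e, h⟩ := h
  refine ⟨e, fun N x => ?_⟩
  obtain ⟨y, hy⟩ := h N (f.symm x)
  refine ⟨f y, ?_⟩
  rw [← map_pow, ← hy, map_pow, MulEquiv.apply_symm_apply]

theorem dvg_two {G₁ G₂ G : Type} [CommGroup G₁] [CommGroup G₂] [CommGroup G] (φ₁ : G₁ →* G)
    (φ₂ : G₂ →* G) (h : ∀ x, ∃ u v, x ^ 2 = φ₁ u * φ₂ v) (h₁ : Dvg G₁) (h₂ : Dvg G₂) : Dvg G := by
  obtain ⟨e₁, h₁⟩ := h₁
  obtain ⟨e₂, h₂⟩ := h₂
  refine ⟨e₁ + e₂ + 1, fun N x => ?_⟩
  obtain ⟨u, v, huv⟩ := h x
  obtain ⟨y₁, hy₁⟩ := h₁ N u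
  obtain ⟨y₂, hy₂⟩ := h₂ N v
  refine ⟨φ₁ (y₁ ^ 2 ^ e₂) * φ₂ (y₂ ^ 2 ^ e₁), ?_⟩
  have k1 : u ^ 2 ^ (e₁ + e₂) = (y₁ ^ 2 ^ e₂) ^ 2 ^ N := by
    rw [pow_add, pow_mul, hy₁, ← pow_mul, ← pow_mul, mul_comm]
  have k2 : v ^ 2 ^ (e₁ + e₂) = (y₂ ^ 2 ^ e₁) ^ 2 ^ N := by
    rw [add_comm, pow_add, pow_mul, hy₂, ← pow_mul, ← pow_mul, mul_comm]
  rw [pow_succ' 2, pow_mul, huv, mul_pow, mul_pow, ← map_pow, ← map_pow, ← map_pow, ← map_pow, k1,
    k2]

section
variable {k : Type} [Field k] {n : ℕ}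

theorem curve_comp {E : Type} [Field E] [Algebra k E] (K : Type) [Field K] [Algebra E[X] K]
    (a : Fin n → k[X]) (P : k[X]) (c : E) :
    (curve K a P c).comp (C (algebraMap E[X] K (C c)) * X) =
      C (algebraMap E[X] K (C c) ^ n) * curve K a P (1 : E) := by
  unfold curve
  rw [mul_comp, C_comp, Polynomial.prod_comp]
  have h1 : ∀ i : Fin n, (X - C (algebraMap E[X] K (C c * (a i).map (algebraMap k E)))).comp
      (C (algebraMap E[X] K (C c)) * X) = C (algebraMap E[X] K (C c)) *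
      (X - C (algebraMap E[X] K (C (1 : E) * (a i).map (algebraMap k E)))) := by
    intro i
    rw [sub_comp, X_comp, C_comp, C_1, one_mul, map_mul, C_mul]
    ring
  rw [Finset.prod_congr rfl fun i _ => h1 i, Finset.prod_mul_distrib, Finset.prod_const,
    Finset.card_univ, Fintype.card_fin, C_pow]
  ring

theorem curve_map {E₁ E : Type} [Field E₁] [Field E] [Algebra k E₁] [Algebra k E] [Algebra E₁ E]
    [IsScalarTower k E₁ E] (K₁ K : Type) [Field K₁] [Algebra E₁[X] K₁] [Field K] [Algebra E[X] K]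
    [Algebra K₁ K] (h : ∀ p : E₁[X], algebraMap K₁ K (algebraMap E₁[X] K₁ p) =
      algebraMap E[X] K (p.map (algebraMap E₁ E))) (a : Fin n → k[X]) (P : k[X]) :
    (curve K₁ a P (1 : E₁)).map (algebraMap K₁ K) = curve K a P (1 : E) := by
  have h2 : ∀ p : k[X], (p.map (algebraMap k E₁)).map (algebraMap E₁ E) = p.map (algebraMap k E) := by
    intro p
    rw [Polynomial.map_map, ← IsScalarTower.algebraMap_eq]
  unfold curve
  simp only [Polynomial.map_mul, Polynomial.map_C, Polynomial.map_prod, Polynomial.map_sub,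
    Polynomial.map_X, h, h2, C_1, one_mul]

end

variable {k : Type} [Field k] [Finite k] {n : ℕ}

/-- divisibility over all the extensions -/
theorem dv_all (hDSQ : S_DSQ) (hISO : S_ISO) (hFLD : S_FLD) (hSUB : S_SUB) (h2 : (2 : k) ≠ 0)
    (hn : Odd n) {a : Fin n → k[X]} (ha : Function.Injective a) {P : k[X]} (hP : P ≠ 0)
    (hF : Full a P) : ∀ (d : ℕ) (E : Type) [Field E] [Finite E] [Algebra k E], finrank k E = d →
    (∀ Q, IsBad a Q → Nat.Coprime Q.natDegree (finrank k E)) → ∀ c : E, c ≠ 0 →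
    ∀ (K : Type) [Field K] [Algebra E[X] K] [IsFractionRing E[X] K], Dvg (J 2 (curve K a P c) K) := by
  intro d
  induction d using Nat.strong_induction_on with
  | _ d ih =>
  intro E _ _ _ hd hco c hc K _ _ _
  by_cases hcs : Even (finrank k E) → ¬ IsSquare c
  · exact dvg_of_good (hF E hco c hc hcs K).2
  push Not at hcs
  obtain ⟨he, ⟨w, hw⟩⟩ := hcs
  obtain ⟨E₁, i1, i2, i3, i4, i5, h6⟩ := hSUB k E he
  haveI : Module.Finite k E := Module.Finite.of_finite
  haveI : Module.Finite k E₁ := Module.Finite.of_finite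
  haveI : Module.Finite E₁ E := Module.Finite.of_finite
  have hmul : finrank k E₁ * 2 = finrank k E := by rw [← h6, finrank_mul_finrank]
  have hpos : 0 < finrank k E₁ := finrank_pos
  have hlt : finrank k E₁ < d := by omega
  have hco₁ : ∀ Q, IsBad a Q → Nat.Coprime Q.natDegree (finrank k E₁) := fun Q hQ =>
    (hco Q hQ).coprime_dvd_right (Dvd.intro _ hmul)
  have hchar : ∀ (F : Type) [Field F] [Algebra k F], ((2 : ℕ) : F) ≠ 0 := by
    intro F _ _
    rw [← map_natCast (algebraMap k F), Ne, _root_.map_eq_zero]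
    exact_mod_cast h2
  have hrc : ringChar E₁ ≠ 2 := by
    intro h
    have h3 : ((2 : ℕ) : E₁) = 0 := by
      rw [← h]
      exact ringChar.Nat.cast_ringChar
    exact hchar E₁ h3
  obtain ⟨iA, σ, g, s, hcomp, hfix, hinv, hg, hs, hσ⟩ :=
    hFLD E₁ E (FractionRing E₁[X]) K hrc h6
  obtain ⟨K₁, hK₁⟩ : ∃ K₁, K₁ = FractionRing E₁[X] := ⟨_, rfl⟩
  have hg0 : g ≠ 0 := by
    rintro rfl
    exact hg IsSquare.zero
  have hinj₁ : Function.Injective (algebraMap E₁[X] (FractionRing E₁[X])) :=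
    IsFractionRing.injective _ _
  have hinj : Function.Injective (algebraMap E[X] K) := IsFractionRing.injective _ _
  have hζ : IsPrimitiveRoot (-1 : E₁) 2 := by
    refine IsPrimitiveRoot.mk_of_lt _ (by norm_num) (by norm_num) ?_
    intro l hl1 hl2
    have : l = 1 := by omega
    rw [this, pow_one]
    intro h
    apply hchar E₁
    have h3 : ((2 : ℕ) : E₁) = 1 + 1 := by norm_num
    rw [h3]
    nth_rewrite 1 [← h]
    ring
  have hδ : algebraMap E₁[X] (FractionRing E₁[X]) (P.map (algebraMap k E₁)) ≠ 0 := by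
    rw [Ne, map_eq_zero_iff _ hinj₁, Polynomial.map_eq_zero]
    exact hP
  have he' : Function.Injective fun i => algebraMap E₁[X] (FractionRing E₁[X])
      (C (1 : E₁) * (a i).map (algebraMap k E₁)) := by
    intro i j hij
    have h3 := hinj₁ hij
    rw [C_1, one_mul, one_mul] at h3
    exact ha (Polynomial.map_injective _ (algebraMap k E₁).injective h3)
  have hn2 : ¬ 2 ∣ n := by
    rw [← even_iff_two_dvd, Nat.not_even_iff_odd]
    exact hn
  obtain ⟨D, hD⟩ : ∃ D : Dat 2 n (FractionRing E₁[X]),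
      D = tDat (FractionRing E₁[X]) Nat.prime_two (hchar E₁) hζ hδ he' hn2 := ⟨_, rfl⟩
  have hDf : D.f = curve (FractionRing E₁[X]) a P (1 : E₁) := by
    rw [hD]
    rfl
  have hcg : algebraMap E₁[X] (FractionRing E₁[X]) (C g) ≠ 0 := by
    rw [Ne, map_eq_zero_iff _ hinj₁, C_eq_zero]
    exact hg0
  have hDf2 : (tws D hcg).f = C (algebraMap E₁[X] (FractionRing E₁[X]) (C g)) *
      curve (FractionRing E₁[X]) a P (1 : E₁) := by
    rw [← hDf]
    show C (algebraMap E₁[X] (FractionRing E₁[X]) (C g) * D.δ) * ∏ i, (X - C (D.e i)) =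
      C (algebraMap E₁[X] (FractionRing E₁[X]) (C g)) * (C D.δ * ∏ i, (X - C (D.e i)))
    rw [C_mul, mul_assoc]
  obtain ⟨φ₁, φ₂, hφ⟩ := hDSQ n (FractionRing E₁[X]) K D σ hfix hinv (algebraMap E[X] K (C s))
    (algebraMap E₁[X] (FractionRing E₁[X]) (C g)) hcg (by
      rw [hcomp, Polynomial.map_C, ← map_pow, ← C_pow, hs]) hσ
  -- the three groups
  have d₁ : Dvg (ClassGroup D.A) := by
    have e1 : Dvg (J 2 D.f (FractionRing E₁[X])) := by
      rw [hDf]
      exact ih _ hlt E₁ rfl hco₁ 1 one_ne_zero (FractionRing E₁[X])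
    exact dvg_equiv (D.Te (FractionRing E₁[X])).symm e1
  have d₂ : Dvg (ClassGroup (tws D hcg).A) := by
    have e1 : Dvg (J 2 (curve (FractionRing E₁[X]) a P g) (FractionRing E₁[X])) :=
      ih _ hlt E₁ rfl hco₁ g hg0 (FractionRing E₁[X])
    have e2 : Nonempty (J 2 (curve (FractionRing E₁[X]) a P g) (FractionRing E₁[X]) ≃*
        J 2 (tws D hcg).f (FractionRing E₁[X])) := by
      refine hISO (FractionRing E₁[X]) (FractionRing E₁[X]) (FractionRing E₁[X]) _ _
        (algebraMap E₁[X] (FractionRing E₁[X]) (C g))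
        (algebraMap E₁[X] (FractionRing E₁[X]) (C g) ^ (n / 2)) hcg (pow_ne_zero _ hcg) ?_
      rw [Algebra.algebraMap_self, Polynomial.map_id, Polynomial.map_id, curve_comp, hDf2,
        ← mul_assoc, ← C_mul, ← pow_mul]
      congr 2
      rw [← pow_succ]
      congr 1
      have := Nat.odd_iff.1 hn
      omega
    obtain ⟨e2⟩ := e2
    exact dvg_equiv ((tws D hcg).Te (FractionRing E₁[X])).symm (dvg_equiv e2 e1)
  have d₃ : Dvg (ClassGroup (D.base K).A) := dvg_two φ₁ φ₂ hφ d₁ d₂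
  have d₄ : Dvg (J 2 D.f K) := dvg_equiv (D.Te K) d₃
  have e3 : Nonempty (J 2 (curve K a P c) K ≃* J 2 D.f K) := by
    have hc0 : algebraMap E[X] K (C c) ≠ 0 := by
      rw [Ne, map_eq_zero_iff _ hinj, C_eq_zero]
      exact hc
    have hw0 : algebraMap E[X] K (C w) ≠ 0 := by
      rw [Ne, map_eq_zero_iff _ hinj, C_eq_zero]
      rintro rfl
      exact hc (by rw [hw, mul_zero])
    refine hISO K (FractionRing E₁[X]) K _ _ (algebraMap E[X] K (C c))
      (algebraMap E[X] K (C w) ^ n) hc0 (pow_ne_zero _ hw0) ?_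
    rw [Algebra.algebraMap_self, Polynomial.map_id, curve_comp, hDf, curve_map _ _ hcomp]
    congr 2
    rw [hw, C_mul, map_mul, ← sq, ← pow_mul, ← pow_mul, mul_comm]
  obtain ⟨e3⟩ := e3
  exact dvg_equiv e3.symm d₄

end Pool.Agent.Q269.GT
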