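import Pool.Agent.Q269.GT.Bd2

/-!
# An example
-/

set_option autoImplicit false
set_option linter.all false

open scoped Classical
open Polynomial Module

namespace Pool.Agent.Q269.GT

open Finset
open Pool.Agent.Y164.HG (F2 F2_cases)

/-- the form with tables -/
def fT {m n : ℕ} (sR ot : Fin m → F2) (nd : Fin m → Fin n → F2) (G : Fin m → Fin m → F2)
    (lc : Fin n → Fin n → F2) (z z' : Fin m → F2) : F2 :=
  ∑ s, sR s * ((z s + ∑ i, (∑ r, z r * nd r i) * nd s i) *
    (z' s + ∑ i, (∑ r, z' r * nd r i) * nd s i)) +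
  ∑ s, ot s * (z s * z' s) +
  ∑ s, ∑ s', G s s' * (z s' * z' s * ∑ i, nd s' i * nd s i) +
  ∑ i, (∑ j, ((∑ r, z r * nd r i) + (∑ r, z r * nd r j)) * lc i j) * (∑ r, z' r * nd r i)

theorem form_fT {k : Type} [Field k] {m n : ℕ} {a : Fin n → k[X]} {R : k[X]} (e : Fin m ≃ Bad a)
    {sR ot : Fin m → F2} {nd : Fin m → Fin n → F2} {G : Fin m → Fin m → F2}
    {lc : Fin n → Fin n → F2} (h1 : ∀ s, symbol R (e s).1 = sR s)
    (h2 : ∀ s l, node a (e s).1 l = nd s l) (h3 : ∀ s, other a (e s).1 = ot s)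
    (h4 : ∀ s s', symbol (e s).1 (e s').1 = G s s')
    (h5 : ∀ i j, (if IsSquare (a i - a j).leadingCoeff then (0 : F2) else 1) = lc i j)
    (z z' : Bad a → ZMod 2) :
    form a R z z' = fT sR ot nd G lc (fun s => z (e s)) (fun s => z' (e s)) := by
  have fs : ∀ f : Bad a → ZMod 2, ∑ᶠ Q : Bad a, f Q = ∑ s : Fin m, f (e s) := by
    intro f
    rw [← finsum_eq_sum_of_fintype, finsum_comp_equiv e]
  have h2' : ∀ s, node a (e s).1 = nd s := fun s => funext (h2 s)
  have hw : ∀ z : Bad a → ZMod 2, weight a z = fun i => ∑ r, z (e r) * nd r i := by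
    intro z
    funext i
    rw [weight, fs]
    exact sum_congr rfl fun s _ => by rw [h2']
  have e1 : ∑ᶠ Q : Bad a, symbol R Q.1 * ((z Q + dot (weight a z) (node a Q.1)) *
      (z' Q + dot (weight a z') (node a Q.1))) = ∑ s, sR s * ((z (e s) +
      ∑ i, (∑ r, z (e r) * nd r i) * nd s i) * (z' (e s) +
      ∑ i, (∑ r, z' (e r) * nd r i) * nd s i)) := by
    rw [fs]
    refine sum_congr rfl fun s _ => ?_
    rw [h1 s, h2' s, hw z, hw z', dot, dot]
  have e2 : ∑ᶠ Q : Bad a, other a Q.1 * (z Q * z' Q) = ∑ s, ot s * (z (e s) * z' (e s)) := by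
    rw [fs]
    exact sum_congr rfl fun s _ => by rw [h3 s]
  have e3 : ∑ᶠ Q : Bad a, ∑ᶠ Q' : Bad a, symbol Q.1 Q'.1 *
      (z Q' * z' Q * dot (node a Q'.1) (node a Q.1)) =
      ∑ s, ∑ s', G s s' * (z (e s') * z' (e s) * ∑ i, nd s' i * nd s i) := by
    rw [fs]
    refine sum_congr rfl fun s _ => ?_
    rw [fs]
    refine sum_congr rfl fun s' _ => ?_
    rw [h4 s s', h2' s, h2' s', dot]
  have e4 : dot (leading a (weight a z)) (weight a z') =
      ∑ i, (∑ j, ((∑ r, z (e r) * nd r i) + (∑ r, z (e r) * nd r j)) * lc i j) *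
        (∑ r, z' (e r) * nd r i) := by
    rw [hw z, hw z', dot]
    refine sum_congr rfl fun i _ => ?_
    rw [leading]
    congr 1
    exact sum_congr rfl fun j _ => by rw [h5]
  rw [form, e1, e2, e3, e4]
  rfl

theorem nd_fT {k : Type} [Field k] {m n : ℕ} {a : Fin n → k[X]} {R : k[X]} (e : Fin m ≃ Bad a)
    {sR ot : Fin m → F2} {nd : Fin m → Fin n → F2} {G : Fin m → Fin m → F2}
    {lc : Fin n → Fin n → F2} (h1 : ∀ s, symbol R (e s).1 = sR s)
    (h2 : ∀ s l, node a (e s).1 l = nd s l) (h3 : ∀ s, other a (e s).1 = ot s)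
    (h4 : ∀ s s', symbol (e s).1 (e s').1 = G s s')
    (h5 : ∀ i j, (if IsSquare (a i - a j).leadingCoeff then (0 : F2) else 1) = lc i j)
    (h : ∀ z : Fin m → F2, (∀ j, fT sR ot nd G lc z (fun i => if i = j then 1 else 0) = 0) → z = 0) :
    Nondegenerate a R := by
  intro z hz
  have k1 := h (fun s => z (e s)) fun j => by
    have k2 := hz fun Q => if e.symm Q = j then 1 else 0
    rw [form_fT e h1 h2 h3 h4 h5] at k2
    simp only [Equiv.symm_apply_apply] at k2
    exact k2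
  funext Q
  have k2 := congrFun k1 (e.symm Q)
  simp only [Equiv.apply_symm_apply] at k2
  exact k2

end Pool.Agent.Q269.GT
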