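import Pool.Agent.Q269.GT.Ex

/-!
# An example over the field with 13 elements
-/

set_option autoImplicit false
set_option linter.all false

open Polynomial Module

namespace Pool.Agent.Q269.GT

open Finset
open Pool.Agent.Y164.HG (F2 F2_cases Del Geo)

def nd0 : Fin 6 → Fin 3 → F2 :=
  ![![1, 1, 0], ![1, 1, 0], ![1, 0, 1], ![1, 0, 1], ![0, 1, 1], ![0, 1, 1]]

def G0 : Fin 6 → Fin 6 → F2 :=
  ![![0, 1, 0, 1, 1, 1], ![1, 0, 1, 0, 1, 1], ![0, 1, 0, 0, 0, 1], ![1, 0, 0, 0, 1, 0],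
    ![1, 1, 0, 1, 0, 0], ![1, 1, 1, 0, 0, 0]]

def lc0 : Fin 3 → Fin 3 → F2 := ![![0, 0, 1], ![0, 0, 0], ![1, 0, 0]]

def lc1 : Fin 3 → Fin 3 → F2 := ![![0, 1, 0], ![1, 0, 1], ![0, 1, 0]]

def sR0 : Fin 6 → F2 := ![0, 0, 1, 1, 1, 1]

def ot0 : Fin 6 → F2 := ![0, 0, 1, 1, 0, 0]

def ot1 : Fin 6 → F2 := ![1, 1, 0, 0, 1, 1]

theorem dec0 : ∀ z : Fin 6 → F2,
    (∀ j, fT sR0 ot0 nd0 G0 lc0 z (fun i => if i = j then 1 else 0) = 0) → z = 0 := by
  decide +kernel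

theorem dec1 : ∀ z : Fin 6 → F2,
    (∀ j, fT sR0 ot1 nd0 G0 lc1 z (fun i => if i = j then 1 else 0) = 0) → z = 0 := by
  decide +kernel

/-- the points -/
def xs : Fin 6 → ZMod 13 := ![1, 12, 5, 8, 6, 7]

/-- the values -/
def vv (i : Fin 3) (x : ZMod 13) : ZMod 13 := ![0, x ^ 2 - 1, 2 * x ^ 2 + 2] i

/-- the node of the difference `i`, `j` -/
def lead13 : Fin 3 → Fin 3 → ZMod 13 := ![![0, 12, 11], ![1, 0, 12], ![2, 1, 0]]

/-- the first root of the difference -/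
def r1 : Fin 3 → Fin 3 → Fin 6 := ![![0, 0, 2], ![0, 0, 4], ![2, 4, 0]]

def r2 : Fin 3 → Fin 3 → Fin 6 := ![![1, 1, 3], ![1, 1, 5], ![3, 5, 1]]

instance fact13 : Fact (Nat.Prime 13) := ⟨by norm_num⟩

/-- the family -/
noncomputable def a13 : Fin 3 → (ZMod 13)[X] := ![0, X ^ 2 - 1, 2 * X ^ 2 + 2]

theorem lead_ne : ∀ i j, i ≠ j → lead13 i j ≠ 0 := by decide

theorem node_tab : ∀ s l, (if ∃ i, i ≠ l ∧ vv i (xs s) = vv l (xs s) then (1 : F2) else 0) =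
    nd0 s l := by decide +kernel

theorem G_tab : ∀ s s', (if IsSquare (xs s' - xs s) then (0 : F2) else 1) = G0 s s' := by
  decide +kernel

theorem sR_tab : ∀ s, (if IsSquare (xs s) then (0 : F2) else 1) = sR0 s := by decide +kernel

theorem ot_tab : ∀ c : ZMod 13, c ≠ 0 → ∀ s, (∑ l, if ∃ i, i ≠ l ∧ vv i (xs s) = vv l (xs s) then
    (0 : F2) else if ∃ i, (∃ j, j ≠ i ∧ vv j (xs s) = vv i (xs s)) ∧
      IsSquare (c * (vv i (xs s) - vv l (xs s))) then 0 else 1) =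
    if IsSquare c then ot0 s else ot1 s := by decide +kernel

theorem lc_tab : ∀ c : ZMod 13, c ≠ 0 → ∀ i j,
    (if IsSquare (c * lead13 i j) then (0 : F2) else 1) =
    if IsSquare c then lc0 i j else lc1 i j := by decide +kernel

theorem r_tab : ∀ i j, i ≠ j → ∀ s, (vv i (xs s) = vv j (xs s) ↔ s = r1 i j ∨ s = r2 i j) := by
  decide +kernel

theorem r_surj : ∀ s, ∃ i j, i ≠ j ∧ (s = r1 i j ∨ s = r2 i j) := by decide

theorem xs_inj : Function.Injective xs := by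
  unfold Function.Injective
  decide

theorem eval13 (i : Fin 3) (x : ZMod 13) : (a13 i).eval x = vv i x := by
  fin_cases i <;> simp [a13, vv]

theorem fac13 : ∀ i j, i ≠ j → a13 i - a13 j =
    C (lead13 i j) * ((X - C (xs (r1 i j))) * (X - C (xs (r2 i j)))) := by
  have e13 : (C (13 : ZMod 13) : (ZMod 13)[X]) = 0 := by
    have : (13 : ZMod 13) = 0 := by decide
    rw [this, C_0]
  have e13' : (13 : (ZMod 13)[X]) = 0 := by
    rw [← e13]
    rfl
  have c12 : (C (12 : ZMod 13) : (ZMod 13)[X]) = 12 := rfl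
  have c11 : (C (11 : ZMod 13) : (ZMod 13)[X]) = 11 := rfl
  have c5 : (C (5 : ZMod 13) : (ZMod 13)[X]) = 5 := rfl
  have c8 : (C (8 : ZMod 13) : (ZMod 13)[X]) = 8 := rfl
  have c6 : (C (6 : ZMod 13) : (ZMod 13)[X]) = 6 := rfl
  have c7 : (C (7 : ZMod 13) : (ZMod 13)[X]) = 7 := rfl
  have c2 : (C (2 : ZMod 13) : (ZMod 13)[X]) = 2 := rfl
  have c1 : (C (1 : ZMod 13) : (ZMod 13)[X]) = 1 := rfl
  intro i j hij
  fin_cases i <;> fin_cases j <;> first | exact absurd rfl hij | skip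
  all_goals simp only [a13, lead13, xs, r1, r2, Fin.zero_eta, Fin.mk_one, Fin.reduceFinMk,
    Matrix.cons_val_zero, Matrix.cons_val_one, Matrix.cons_val, c12, c11, c5, c8, c6, c7, c2, c1]
  · linear_combination ((-X ^ 2 + 12 * X - 11 : (ZMod 13)[X])) * e13'
  · linear_combination ((-X ^ 2 + 11 * X - 34 : (ZMod 13)[X])) * e13'
  · linear_combination ((X - 1 : (ZMod 13)[X])) * e13'
  · linear_combination ((-X ^ 2 + 12 * X - 39 : (ZMod 13)[X])) * e13'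
  · linear_combination ((2 * X - 6 : (ZMod 13)[X])) * e13'
  · linear_combination ((X - 3 : (ZMod 13)[X])) * e13'

end Pool.Agent.Q269.GT
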