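import Pool.Agent.Q269.GT.Ex2

/-!
# An example over the field with 13 elements: the hypotheses
-/

set_option autoImplicit false
set_option linter.all false

open scoped Classical
open Polynomial Module

namespace Pool.Agent.Q269.GT

open Finset
open Pool.Agent.Y164.HG (F2 F2_cases Del Geo)

theorem ite_cl {α : Type} {p q : Prop} {i1 : Decidable p} {i2 : Decidable q} (h : p ↔ q) (x y : α) :
    (@ite _ p i1 x y) = (@ite _ q i2 x y) := by
  by_cases hp : p
  · rw [if_pos hp, if_pos (h.1 hp)]
  · rw [if_neg hp, if_neg (fun hq => hp (h.2 hq))]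

theorem squareMod_X_sub_C {k : Type} [Field k] (x : k) (f : k[X]) :
    SquareMod (X - C x) f ↔ IsSquare (f.eval x) := by
  unfold SquareMod
  simp only [dvd_iff_isRoot, IsRoot.def, eval_sub, eval_pow, sub_eq_zero]
  constructor
  · rintro ⟨g, hg⟩
    exact ⟨g.eval x, by rw [← hg, sq]⟩
  · rintro ⟨y, hy⟩
    exact ⟨C y, by rw [eval_C, hy, sq]⟩

theorem symbol_X_sub_C {k : Type} [Field k] (x : k) (f : k[X]) :
    symbol f (X - C x) = if IsSquare (f.eval x) then 0 else 1 := by
  rw [symbol]
  exact ite_cl (squareMod_X_sub_C x f) 0 1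

section
variable {c : ZMod 13} (hc : c ≠ 0)

include hc

theorem facc {i j : Fin 3} (h : i ≠ j) : C c * a13 i - C c * a13 j =
    C (c * lead13 i j) * ((X - C (xs (r1 i j))) * (X - C (xs (r2 i j)))) := by
  rw [← mul_sub, fac13 i j h, C_mul, mul_assoc]

theorem dvdc (i j : Fin 3) (s : Fin 6) :
    X - C (xs s) ∣ C c * a13 i - C c * a13 j ↔ vv i (xs s) = vv j (xs s) := by
  rw [dvd_iff_isRoot, IsRoot.def, eval_sub, eval_mul, eval_mul, eval_C, eval13, eval13,
    ← mul_sub, mul_eq_zero, or_iff_right hc, sub_eq_zero]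

theorem badc {Q : (ZMod 13)[X]} : IsBad (fun i => C c * a13 i) Q ↔ ∃ s, Q = X - C (xs s) := by
  constructor
  · rintro ⟨hm, hi, i, j, hij, hd⟩
    have hd' : Q ∣ C (c * lead13 i j) * ((X - C (xs (r1 i j))) * (X - C (xs (r2 i j)))) := by
      rw [← facc hc hij]
      exact hd
    rw [(isUnit_C.2 (isUnit_iff_ne_zero.2 (mul_ne_zero hc (lead_ne i j hij)))).dvd_mul_left] at hd'
    rcases hi.prime.dvd_or_dvd hd' with h | h
    · exact ⟨_, eq_of_monic_of_associated hm (monic_X_sub_C _)
        (hi.associated_of_dvd (irreducible_X_sub_C _) h)⟩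
    · exact ⟨_, eq_of_monic_of_associated hm (monic_X_sub_C _)
        (hi.associated_of_dvd (irreducible_X_sub_C _) h)⟩
  · rintro ⟨s, rfl⟩
    obtain ⟨i, j, hij, h⟩ := r_surj s
    refine ⟨monic_X_sub_C _, irreducible_X_sub_C _, i, j, hij, ?_⟩
    exact (dvdc hc i j s).2 ((r_tab i j hij s).2 h)

/-- the bad primes -/
noncomputable def ec : Fin 6 ≃ Bad (fun i => C c * a13 i) :=
  Equiv.ofBijective (fun s => ⟨X - C (xs s), (badc hc).2 ⟨s, rfl⟩⟩) (by
    constructor
    · intro s s' h
      have h1 : (X - C (xs s) : (ZMod 13)[X]) = X - C (xs s') := congrArg Subtype.val h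
      exact xs_inj (C_injective (sub_right_injective h1))
    · rintro ⟨Q, hQ⟩
      obtain ⟨s, hs⟩ := (badc hc).1 hQ
      exact ⟨s, Subtype.ext hs.symm⟩)

theorem ec_val (s : Fin 6) : (ec hc s).1 = X - C (xs s) := rfl

theorem atc (s : Fin 6) (l : Fin 3) : AtNode (fun i => C c * a13 i) (X - C (xs s)) l ↔
    ∃ i, i ≠ l ∧ vv i (xs s) = vv l (xs s) := by
  unfold AtNode
  refine exists_congr fun i => and_congr_right fun _ => ?_
  exact dvdc hc i l s

theorem good_c : Nondegenerate (fun i => C c * a13 i) X := by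
  have h1 : ∀ s, symbol X (ec hc s).1 = sR0 s := by
    intro s
    rw [ec_val, symbol_X_sub_C, eval_X, ← sR_tab s]
    exact ite_cl Iff.rfl 0 1
  have h2 : ∀ s l, node (fun i => C c * a13 i) (ec hc s).1 l = nd0 s l := by
    intro s l
    rw [ec_val, node, ← node_tab s l]
    exact ite_cl (atc hc s l) 1 0
  have h3 : ∀ s, other (fun i => C c * a13 i) (ec hc s).1 = if IsSquare c then ot0 s else ot1 s := by
    intro s
    rw [ec_val, other, show (if IsSquare c then ot0 s else ot1 s) = _ from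
      (ite_cl Iff.rfl _ _).trans (ot_tab c hc s).symm]
    refine sum_congr rfl fun l _ => ?_
    by_cases hl : ∃ i, i ≠ l ∧ vv i (xs s) = vv l (xs s)
    · rw [if_pos hl, if_pos ((atc hc s l).2 hl)]
    · rw [if_neg hl, if_neg fun h => hl ((atc hc s l).1 h)]
      apply ite_cl
      refine exists_congr fun i => and_congr (atc hc s i) ?_
      rw [squareMod_X_sub_C, eval_sub, eval_mul, eval_mul, eval_C, eval13, eval13, ← mul_sub]
  have h4 : ∀ s s', symbol (ec hc s).1 (ec hc s').1 = G0 s s' := by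
    intro s s'
    rw [ec_val, ec_val, symbol_X_sub_C, eval_sub, eval_X, eval_C, ← G_tab s s']
    exact ite_cl Iff.rfl 0 1
  have h5 : ∀ i j, (if IsSquare (C c * a13 i - C c * a13 j).leadingCoeff then (0 : F2) else 1) =
      if IsSquare c then lc0 i j else lc1 i j := by
    intro i j
    rw [show (if IsSquare c then lc0 i j else lc1 i j) = _ from
      (ite_cl Iff.rfl _ _).trans (lc_tab c hc i j).symm]
    apply ite_cl
    by_cases hij : i = j
    · have h0 : lead13 i j = 0 := by
        rw [hij]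
        exact (by decide : ∀ j, lead13 j j = 0) j
      rw [h0, mul_zero, hij, sub_self, leadingCoeff_zero]
    · rw [facc hc hij, leadingCoeff_mul, leadingCoeff_mul, leadingCoeff_C, leadingCoeff_X_sub_C,
        leadingCoeff_X_sub_C, mul_one, mul_one]
  by_cases hs : IsSquare c
  · refine nd_fT (ec hc) h1 h2 (ot := ot0) (fun s => ?_) h4 (lc := lc0) (fun i j => ?_) dec0
    · rw [h3 s, if_pos hs]
    · exact (ite_cl Iff.rfl _ _).trans ((h5 i j).trans (if_pos hs))
  · refine nd_fT (ec hc) h1 h2 (ot := ot1) (fun s => ?_) h4 (lc := lc1) (fun i j => ?_) dec1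
    · rw [h3 s, if_neg hs]
    · exact (ite_cl Iff.rfl _ _).trans ((h5 i j).trans (if_neg hs))

end

theorem one_a13 : (fun i => C (1 : ZMod 13) * a13 i) = a13 := by
  funext i
  rw [C_1, one_mul]

/-- the hypotheses of the example -/
theorem ex13 : (∀ i j, i ≠ j → (a13 i - a13 j).natDegree = 2) ∧ Squarefree (Del a13) ∧
    (∀ Q, IsBad a13 Q → Q.natDegree = 1) ∧ IsGood a13 X := by
  refine ⟨?_, ?_, ?_, ?_⟩
  · intro i j hij
    rw [fac13 i j hij, natDegree_C_mul (lead_ne i j hij), natDegree_mul (X_sub_C_ne_zero _)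
      (X_sub_C_ne_zero _), natDegree_X_sub_C, natDegree_X_sub_C]
  · have h1 : Del a13 = C (lead13 0 1 * lead13 0 2 * lead13 1 2) * ∏ s : Fin 6, (X - C (xs s)) := by
      have h2 : (univ : Finset (Fin 3 × Fin 3)).filter (fun x => x.1 < x.2) =
          {(0, 1), (0, 2), (1, 2)} := by decide
      rw [Del, h2, prod_insert (by decide), prod_insert (by decide), prod_singleton,
        fac13 0 1 (by decide), fac13 0 2 (by decide), fac13 1 2 (by decide)]
      have q1 : r1 0 1 = 0 := rfl
      have q2 : r2 0 1 = 1 := rfl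
      have q3 : r1 0 2 = 2 := rfl
      have q4 : r2 0 2 = 3 := rfl
      have q5 : r1 1 2 = 4 := rfl
      have q6 : r2 1 2 = 5 := rfl
      rw [q1, q2, q3, q4, q5, q6, Fin.prod_univ_six, C_mul, C_mul]
      generalize (X - C (xs 0) : (ZMod 13)[X]) = y0
      generalize (X - C (xs 1) : (ZMod 13)[X]) = y1
      generalize (X - C (xs 2) : (ZMod 13)[X]) = y2
      generalize (X - C (xs 3) : (ZMod 13)[X]) = y3
      generalize (X - C (xs 4) : (ZMod 13)[X]) = y4
      generalize (X - C (xs 5) : (ZMod 13)[X]) = y5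
      generalize (C (lead13 0 1) : (ZMod 13)[X]) = u1
      generalize (C (lead13 0 2) : (ZMod 13)[X]) = u2
      generalize (C (lead13 1 2) : (ZMod 13)[X]) = u3
      ring
    rw [h1]
    have h3 : Squarefree (∏ s : Fin 6, (X - C (xs s)) : (ZMod 13)[X]) :=
      (separable_prod_X_sub_C_iff.2 xs_inj).squarefree
    have h4 : IsUnit (C (lead13 0 1 * lead13 0 2 * lead13 1 2) : (ZMod 13)[X]) :=
      isUnit_C.2 (isUnit_iff_ne_zero.2 (by decide))
    intro x hx
    exact h3 x ((h4.dvd_mul_left).1 hx)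
  · intro Q hQ
    rw [← one_a13] at hQ
    obtain ⟨s, rfl⟩ := (badc one_ne_zero).1 hQ
    exact natDegree_X_sub_C _
  · constructor
    · have h := good_c (c := 1) one_ne_zero
      rw [one_a13] at h
      exact h
    · intro c hc
      refine good_c ?_
      rintro rfl
      exact hc IsSquare.zero

end Pool.Agent.Q269.GT
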