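import Pool.Agent.Q269.GT.Mat
import Pool.Agent.Q24.GT.ORB
import Pool.Agent.Q24.GT.CYC
import Pool.Agent.Q24.GT.CHP
import Pool.Agent.Q24.GT.SPN
import Pool.Agent.Q24.GT.EXC
import Pool.Agent.Q24.GT.CLS
import Pool.Agent.Q65.GT.Fin
import Pool.Agent.Q65.GT.Evn
import Pool.Agent.Q177.GT.Cnt
import Pool.Agent.Q237.GT.BAS

/-!
# The theorem in the terms of the library
-/

set_option autoImplicit false
set_option linter.all false

open scoped Classical
open Polynomial Module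

namespace Pool.Agent.Q269.GT

open Finset
open Pool.Agent.H341R2.Sharp
open Pool.Agent.Y164.HG
open Pool.Agent.Y164.PS (L ch lam_mem L_C ch_mul ch_eq_zero_iff L_mul_left coprime_C
  coprime_of_not_dvd L_of_not_coprime lam_eq_zero_iff Fam L_comm L_neg_left)

/-- the conclusion over all the extensions -/
def FullL {k : Type} [Field k] {n : ℕ} (a : Fin n → k[X]) (P : k[X]) : Prop :=
  ∀ (E : Type) [Field E] [Finite E] [Algebra k E],
    (∀ Q : k[X], Irreducible Q → Q ∣ Del a → Nat.Coprime Q.natDegree (finrank k E)) →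
    ∀ c : E, c ≠ 0 → (Even (finrank k E) → ¬ IsSquare c) →
    ∀ (K : Type) [Field K] [Algebra E[X] K] [IsFractionRing E[X] K],
      Good K (aE a c) (P.map (algebraMap k E))

variable {k : Type} [Field k] [Fintype k] [DecidableEq k]
variable {n : ℕ} [Fact (Odd n)] {a : Fin n → k[X]} {N : ℕ} (H : Geo a N)

theorem finrank_EW : finrank F2 (EW n) ≤ n := by
  have h := Submodule.finrank_le (EW n)
  rwa [finrank_fintype_fun_eq_card, Fintype.card_fin] at h

theorem finrank_EW_lt (hn : 1 ≤ n) : finrank F2 (EW n) + 1 ≤ n := by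
  have h1 : EW n ≠ ⊤ := by
    intro h
    have h2 : (fun i : Fin n => if i = ⟨0, hn⟩ then (1 : F2) else 0) ∈ EW n := by
      rw [h]
      exact Submodule.mem_top
    have h3 : ∑ i : Fin n, (if i = ⟨0, hn⟩ then (1 : F2) else 0) = 0 := h2
    rw [sum_ite_eq' univ (⟨0, hn⟩ : Fin n), if_pos (mem_univ _)] at h3
    exact one_ne_zero h3
  have h4 := Submodule.finrank_lt h1
  rw [finrank_fintype_fun_eq_card, Fintype.card_fin] at h4
  exact h4

include H in
/-- the exceptional primes of a class -/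
theorem card_bad {g : k} (hg : ¬ IsSquare g) (Hg : Geo (aE a g) N) (hN : Even N)
    (hodd : ∀ Q : k[X], Irreducible Q → Q ∣ Del a → Odd Q.natDegree) {R : k[X]}
    (hR : BaseT H R) (hRg : BaseT Hg R) {m : ℕ} (hm : m.Prime) (hmo : Odd m) :
    (({P : k[X] | P.Monic ∧ Irreducible P ∧ P.natDegree = m ∧ ¬ P ∣ Del a ∧ SameC a P R ∧
      SameC (aE a g) P R ∧ ¬ FullL a P}.ncard : ℕ) : ℝ) ≤
      6 * ((n : ℝ) - 1) * (Nat.card k : ℝ) ^ m / 2 ^ (orderOf (2 : ZMod m) / 4) := by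
  have hfin : {P : k[X] | P.Monic ∧ Irreducible P ∧ P.natDegree = m}.Finite := by
    apply ((Irr k m : Finset k[X]).finite_toSet).subset
    rintro P ⟨h1, h2, h3⟩
    rw [Finset.mem_coe, mem_Irr]
    exact ⟨h1, h2, h3.le⟩
  have h1 := card_exc Pool.Agent.Q24.GT.t_ORB
    (Pool.Agent.Q24.GT.t_EXC Pool.Agent.Q24.GT.t_SPN Pool.Agent.Q177.GT.t_CNT) H.hk H.hm hm hmo
    (Cm H R).charpoly_monic.ne_zero
  have h2 := card_exc Pool.Agent.Q24.GT.t_ORB
    (Pool.Agent.Q24.GT.t_EXC Pool.Agent.Q24.GT.t_SPN Pool.Agent.Q177.GT.t_CNT) H.hk H.hm hm hmo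
    (Cm Hg R).charpoly_monic.ne_zero
  rw [LinearMap.charpoly_natDegree] at h1 h2
  have h3 : {P : k[X] | P.Monic ∧ Irreducible P ∧ P.natDegree = m ∧ ¬ P ∣ Del a ∧ SameC a P R ∧
      SameC (aE a g) P R ∧ ¬ FullL a P}.ncard ≤
      {P : k[X] | P.Monic ∧ Irreducible P ∧ P.natDegree = m ∧ Exc (Cm H R).charpoly P}.ncard +
      {P : k[X] | P.Monic ∧ Irreducible P ∧ P.natDegree = m ∧ Exc (Cm Hg R).charpoly P}.ncard := by
    refine le_trans (Set.ncard_le_ncard ?_ ?_) (Set.ncard_union_le _ _)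
    · rintro P ⟨p1, p2, p3, p4, p5, p6, p7⟩
      by_contra hno
      rw [Set.mem_union, not_or] at hno
      apply p7
      have n1 : NonEx H P := (nonEx_iff H p5).2 fun h => hno.1 ⟨p1, p2, p3, h⟩
      have n2 : NonEx Hg P := (nonEx_iff Hg p6).2 fun h => hno.2 ⟨p1, p2, p3, h⟩
      intro E _ _ _ hco c hc hcs K _ _ _
      haveI : Fintype E := Fintype.ofFinite E
      exact full_of H Pool.Agent.Q65.GT.t_IRR Pool.Agent.Q65.GT.t_SPL Pool.Agent.Q65.GT.t_ROOT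
        Pool.Agent.Q65.GT.t_EVN Pool.Agent.Q65.GT.t_RLB Pool.Agent.Q24.GT.t_CYC
        Pool.Agent.Q24.GT.t_CHP Pool.Agent.Q237.GT.t_BAS hg Hg hN hodd p1 p2 p4
        (by rw [p3]; exact hm) (by rw [p3]; exact hmo) ((base_congr H p5).2 hR) n1
        ((base_congr Hg p6).2 hRg) n2 hco hc hcs K
    · apply Set.Finite.union
      · exact hfin.subset fun P h => ⟨h.1, h.2.1, h.2.2.1⟩
      · exact hfin.subset fun P h => ⟨h.1, h.2.1, h.2.2.1⟩
  have hm0 : (0 : ℝ) < m := by exact_mod_cast hm.pos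
  have hF : ((finrank F2 (EW n) : ℕ) : ℝ) ≤ (n : ℝ) - 1 := by
    have h := finrank_EW_lt (n := n) (by have := H.hn3; omega)
    have h' : ((finrank F2 (EW n) + 1 : ℕ) : ℝ) ≤ (n : ℝ) := by exact_mod_cast h
    push_cast at h'
    linarith
  obtain ⟨x, hx⟩ : ∃ x : ℝ, x = (Nat.card k : ℝ) ^ m / 2 ^ (orderOf (2 : ZMod m) / 4) := ⟨_, rfl⟩
  have hx0 : 0 ≤ x := by rw [hx]; positivity
  have e1 : 3 * (m : ℝ) * (finrank F2 (EW n) : ℕ) * (Nat.card k : ℝ) ^ m /
      2 ^ (orderOf (2 : ZMod m) / 4) ≤ 3 * m * ((n : ℝ) - 1) * x := by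
    rw [mul_div_assoc, ← hx]
    apply mul_le_mul_of_nonneg_right _ hx0
    exact mul_le_mul_of_nonneg_left hF (by positivity)
  have h4 : (({P : k[X] | P.Monic ∧ Irreducible P ∧ P.natDegree = m ∧ ¬ P ∣ Del a ∧ SameC a P R ∧
      SameC (aE a g) P R ∧ ¬ FullL a P}.ncard : ℕ) : ℝ) ≤
      (({P : k[X] | P.Monic ∧ Irreducible P ∧ P.natDegree = m ∧
        Exc (Cm H R).charpoly P}.ncard : ℕ) : ℝ) +
      (({P : k[X] | P.Monic ∧ Irreducible P ∧ P.natDegree = m ∧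
        Exc (Cm Hg R).charpoly P}.ncard : ℕ) : ℝ) := by exact_mod_cast h3
  rw [mul_div_assoc, ← hx]
  have h5 := h1.trans e1
  have h6 := h2.trans e1
  have h7 : (m : ℝ) * (({P : k[X] | P.Monic ∧ Irreducible P ∧ P.natDegree = m ∧ ¬ P ∣ Del a ∧
      SameC a P R ∧ SameC (aE a g) P R ∧ ¬ FullL a P}.ncard : ℕ) : ℝ) ≤
      m * (6 * ((n : ℝ) - 1) * x) := by
    have := mul_le_mul_of_nonneg_left h4 hm0.le
    rw [mul_add] at this
    linarith
  exact le_of_mul_le_mul_left h7 hm0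

end Pool.Agent.Q269.GT
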