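import Pool.Agent.Y164.HG.Geo
import Pool.Agent.Q269.GT.Stm

/-!
# Project GT (helper269): base change of the data of the family
-/

set_option autoImplicit false
set_option linter.all false

open scoped Classical
open Polynomial Module

namespace Pool.Agent.Q269.GT

open Pool.Agent.Y164.HG (F2 Symp om Dat Triv V Geo Tau QQ Del)

/-- **JOB BAS.** Base change of the family and of its bad primes (uses IRR).
Proof. `Geo`: `ringChar E = ringChar k`; `-1` is a square in `E`; the differences are `C c` times the images
of the differences (same degree); `Del` of the new family is a nonzero constant times the image of `Del a`,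
which is squarefree because `k` is perfect (separable: `Polynomial.Separable.map`). Bad primes: a monic
irreducible divisor of `Del a''` divides `(Del a).map = lc * ∏ (images of the monic irreducible divisors Q of
Del a)`, and these images are irreducible by IRR (`deg Q` prime to `[E : k]`), so it is one of them;
conversely the images are monic, irreducible, divide `Del a''`, and `map` is injective. Membership in
`bpF`: `Geo.mem`. -/
def S_BAS : Prop := ∀ (k E : Type) [Field k] [Fintype k] [DecidableEq k] [Field E] [Fintype E]
  [DecidableEq E] [Algebra k E] (n N : ℕ) (a : Fin n → k[X]), Geo a N →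
    (∀ Q : k[X], Irreducible Q → Q ∣ Del a → Nat.Coprime Q.natDegree (finrank k E)) →
    ∀ c : E, c ≠ 0 → Geo (fun i => C c * (a i).map (algebraMap k E)) N ∧
      ∃ ε : Tau (fun i => C c * (a i).map (algebraMap k E)) ≃ Tau a,
        ∀ s, QQ (fun i => C c * (a i).map (algebraMap k E)) s =
          (QQ a (ε s)).map (algebraMap k E)

end Pool.Agent.Q269.GT
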