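import Pool.Agent.Q269.GT.Dec
import Pool.Agent.Q269.GT.Stm2
import Pool.Agent.Y164.HG.Imp

/-!
# The curves over all the extensions
-/

set_option autoImplicit false
set_option linter.all false

open scoped Classical
open Polynomial Module

namespace Pool.Agent.Q269.GT

open Finset
open Pool.Agent.H341R2.Sharp
open Pool.Agent.Y164.HG
open Pool.Agent.Y164.PS (L ch lam_mem L_C ch_mul ch_eq_zero_iff L_mul_left coprime_C
  coprime_of_not_dvd L_of_not_coprime lam_eq_zero_iff Fam L_comm L_neg_left)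

variable {k E : Type} [Field k] [Fintype k] [DecidableEq k] [Field E] [Fintype E] [DecidableEq E]
  [Algebra k E]
variable {n : ℕ} [Fact (Odd n)] {a : Fin n → k[X]} {N : ℕ} (H : Geo a N)

include H in
/-- from the decomposition to the curves -/
theorem good_of_fin {c : E} (H' : Geo (aE a c) N) (ε : Tau (aE a c) ≃ Tau a)
    (hε : ∀ s, QQ (aE a c) s = (QQ a (ε s)).map (algebraMap k E)) (K : Type) [Field K]
    [Algebra E[X] K] [IsFractionRing E[X] K] (hN : Even N) {P : k[X]} (hP : P.Monic)
    (hi : Irreducible P) (hbad : ¬ P ∣ Del a) (h : Fin' H' P) :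
    Good K (aE a c) (P.map (algebraMap k E)) := by
  obtain ⟨ι, _, T, h1, h2, h3, h4, h5, h6, σ, h7, h8⟩ := h
  rw [← h4]
  refine imp_good H' σ ι T ⟨?_, ?_, ?_⟩ h7 ?_ h8
  · rintro (i | s)
    · exact h1 i
    · exact H'.fam.mon s
  · rintro (i | s)
    · exact h2 i
    · exact H'.fam.irr s
  · have hne : ∀ i s, T i ≠ QQ (aE a c) s := by
      intro i s h
      have h9 : T i ∣ P.map (algebraMap k E) := by
        rw [← h4]
        exact dvd_prod_of_mem T (mem_univ i)
      rw [h, hε] at h9
      have h10 := (map_dvd_map' _).1 h9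
      have h11 : QQ a (ε s) = P :=
        eq_of_monic_of_associated (H.fam.mon _) hP ((H.fam.irr _).associated_of_dvd hi h10)
      apply hbad
      rw [← h11]
      exact (H.mem.1 (ε s).2).2.2
    rintro (i | s) (j | s') h
    · exact congrArg Sum.inl (h3 h)
    · exact absurd h (hne i s')
    · exact absurd h.symm (hne j s)
    · exact congrArg Sum.inr (H'.fam.inj h)
  · show ∑ i, ((T i).natDegree : F2) + (N : F2) = 1
    rw [(ZMod.natCast_eq_zero_iff_even).2 hN, add_zero,
      sum_congr rfl fun i _ => (ZMod.natCast_eq_one_iff_odd).2 (h6 i), sum_const, card_univ,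
      nsmul_eq_mul, mul_one]
    exact (ZMod.natCast_eq_one_iff_odd).2 h5

/-- the twist of the family by a constant -/
theorem aE_aE (a : Fin n → k[X]) (g : k) (c : E) :
    aE (aE a g) c = aE a (c * algebraMap k E g) := by
  funext i
  simp only [aE, Polynomial.map_mul, Polynomial.map_C, Algebra.algebraMap_self, Polynomial.map_id,
    C_mul, mul_assoc]

include H in
/-- the conclusion over all the extensions -/
theorem full_of (hIRR : S_IRR) (hSPL : S_SPL) (hROOT : S_ROOT) (hEVN : S_EVN) (hRLB : S_RLB)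
    (hCYC : S_CYC) (hCHP : S_CHP) (hBAS : S_BAS) {g : k} (hg : ¬ IsSquare g) (Hg : Geo (aE a g) N)
    (hN : Even N) (hodd : ∀ Q : k[X], Irreducible Q → Q ∣ Del a → Odd Q.natDegree) {P : k[X]}
    (hP : P.Monic) (hi : Irreducible P)
    (hbad : ¬ P ∣ Del a) (hm : P.natDegree.Prime) (hmo : Odd P.natDegree) (hB : BaseT H P)
    (hNE : NonEx H P) (hBg : BaseT Hg P) (hNEg : NonEx Hg P)
    (hco : ∀ Q : k[X], Irreducible Q → Q ∣ Del a → Nat.Coprime Q.natDegree (finrank k E))
    {c : E} (hc : c ≠ 0) (hcs : Even (finrank k E) → ¬ IsSquare c) (K : Type) [Field K]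
    [Algebra E[X] K] [IsFractionRing E[X] K] : Good K (aE a c) (P.map (algebraMap k E)) := by
  have hg0 : g ≠ 0 := by
    rintro rfl
    exact hg ⟨0, (mul_zero 0).symm⟩
  have hdel : ∀ Q : k[X], Q ∣ Del (aE a g) ↔ Q ∣ Del a := by
    intro Q
    have e1 : Del (aE a g) = C (g ^ ((univ : Finset (Fin n × Fin n)).filter
        (fun x => x.1 < x.2)).card) * Del a := by
      unfold Del
      rw [C_pow, ← prod_const, ← prod_mul_distrib]
      refine prod_congr rfl fun x _ => ?_
      simp only [aE, Algebra.algebraMap_self, Polynomial.map_id, mul_sub]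
    rw [e1]
    exact (isUnit_C.2 (isUnit_iff_ne_zero.2 (pow_ne_zero _ hg0))).dvd_mul_left
  rcases Nat.even_or_odd (finrank k E) with he | ho
  · obtain ⟨H', ε, hε⟩ := hBAS k E n N a H hco c hc
    refine good_of_fin H H' ε hε K hN hP hi hbad ?_
    exact fin_even H H' ε hε hIRR hSPL hROOT hEVN hc (hcs he) he
      (fun s => hodd _ (H.fam.irr s) (H.mem.1 s.2).2.2) hN hP hi hm hmo
  · by_cases hs : IsSquare c
    · obtain ⟨H', ε, hε⟩ := hBAS k E n N a H hco c hc
      refine good_of_fin H H' ε hε K hN hP hi hbad ?_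
      exact fin_odd H H' ε hε hIRR hSPL hROOT hRLB hCYC hCHP hc ((ch_eq_zero_iff hc).2 hs) ho hP hi
        hm hmo hB hNE
    · -- the twist by a nonsquare of `k`
      have e0 : (finrank k E : F2) = 1 := (ZMod.natCast_eq_one_iff_odd).2 ho
      have hg1 : algebraMap k E g ≠ 0 := (_root_.map_ne_zero _).2 hg0
      obtain ⟨c1, hc1⟩ : ∃ c1, c1 = c / algebraMap k E g := ⟨_, rfl⟩
      have hc10 : c1 ≠ 0 := by
        rw [hc1]
        exact div_ne_zero hc hg1
      have hc2 : c = c1 * algebraMap k E g := by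
        rw [hc1, div_mul_cancel₀ _ hg1]
      have hch : ch c1 = 0 := by
        have h1 : ch c = ch c1 + ch (algebraMap k E g) := by rw [hc2, ch_mul hc10 hg1]
        have h2 : ch c = 1 := F2_ne_zero fun h => hs ((ch_eq_zero_iff hc).1 h)
        have h3 : ch g = 1 := F2_ne_zero fun h => hg ((ch_eq_zero_iff hg0).1 h)
        rw [ch_map H.hk, e0, one_mul, h3, h2] at h1
        have h4 : ∀ x : F2, 1 = x + 1 → x = 0 := by decide
        exact h4 _ h1
      obtain ⟨H', ε, hε⟩ := hBAS k E n N (aE a g) Hg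
        (fun Q hQ hd => hco Q hQ ((hdel Q).1 hd)) c1 hc10
      have h5 := good_of_fin Hg H' ε hε K hN hP hi (fun h => hbad ((hdel P).1 h))
        (fin_odd Hg H' ε hε hIRR hSPL hROOT hRLB hCYC hCHP hc10 hch ho hP hi hm hmo hBg hNEg)
      rw [aE_aE, ← hc2] at h5
      exact h5

end Pool.Agent.Q269.GT
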