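import Pool.Agent.Q269.GT.Stm3

set_option autoImplicit false
set_option linter.all false

open scoped Classical
open Polynomial Module

namespace Pool.Agent.Q269.GT

open Pool.Agent.Y713.SE
open Pool.Agent.Y713.Jac (J)

section
variable {L : Type} [Field L]

/-- the homomorphism `X ↦ u X`, `y ↦ v y` -/
noncomputable def subHom (f g : L[X]) (u v : L) (h : f.comp (C u * X) = C (v ^ 2) * g) :
    AdjoinRoot (X ^ 2 - C f : L[X][X]) →+* AdjoinRoot (X ^ 2 - C g : L[X][X]) :=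
  AdjoinRoot.lift ((AdjoinRoot.of _).comp (compRingHom (C u * X)))
    (AdjoinRoot.of _ (C v) * AdjoinRoot.root _) (by
      have h1 := AdjoinRoot.eval₂_root (X ^ 2 - C g : L[X][X])
      rw [eval₂_sub, eval₂_pow, eval₂_X, eval₂_C, sub_eq_zero] at h1
      rw [eval₂_sub, eval₂_pow, eval₂_X, eval₂_C, mul_pow, h1, RingHom.comp_apply,
        coe_compRingHom_apply, h, C_pow, map_mul, map_pow, sub_self])

theorem subHom_of (f g : L[X]) (u v : L) (h : f.comp (C u * X) = C (v ^ 2) * g) (p : L[X]) :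
    subHom f g u v h (AdjoinRoot.of _ p) = AdjoinRoot.of _ (p.comp (C u * X)) :=
  AdjoinRoot.lift_of _

theorem subHom_root (f g : L[X]) (u v : L) (h : f.comp (C u * X) = C (v ^ 2) * g) :
    subHom f g u v h (AdjoinRoot.root _) = AdjoinRoot.of _ (C v) * AdjoinRoot.root _ :=
  AdjoinRoot.lift_root _

theorem subHom_inv (f g : L[X]) {u v : L} (hu : u ≠ 0) (hv : v ≠ 0)
    (h : f.comp (C u * X) = C (v ^ 2) * g) (h' : g.comp (C u⁻¹ * X) = C (v⁻¹ ^ 2) * f) :
    (subHom g f u⁻¹ v⁻¹ h').comp (subHom f g u v h) = RingHom.id _ := by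
  apply AdjoinRoot.ringHom_ext
  · refine RingHom.ext fun p => ?_
    rw [RingHom.comp_apply, RingHom.comp_apply, RingHom.comp_apply, subHom_of, subHom_of, RingHom.id_apply, comp_assoc, mul_comp, C_comp,
      X_comp, ← mul_assoc, ← C_mul, mul_inv_cancel₀ hu, C_1, one_mul, comp_X]
  · rw [RingHom.comp_apply, subHom_root, map_mul, subHom_of, subHom_root, RingHom.id_apply, C_comp,
      ← mul_assoc, ← map_mul, ← C_mul, mul_inv_cancel₀ hv, C_1, map_one, one_mul]

theorem inv_rel {f g : L[X]} {u v : L} (hu : u ≠ 0) (hv : v ≠ 0)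
    (h : f.comp (C u * X) = C (v ^ 2) * g) : g.comp (C u⁻¹ * X) = C (v⁻¹ ^ 2) * f := by
  have h1 := congrArg (fun p => C (v⁻¹ ^ 2) * p.comp (C u⁻¹ * X)) h
  rw [comp_assoc, mul_comp, C_comp, X_comp, ← mul_assoc (C u), ← C_mul, mul_inv_cancel₀ hu, C_1,
    one_mul, comp_X, mul_comp, C_comp, ← mul_assoc, ← C_mul, inv_pow, inv_mul_cancel₀
      (pow_ne_zero 2 hv), C_1, one_mul] at h1
  rw [← h1, inv_pow]

end

theorem t_ISO : S_ISO := by
  intro K₁ K₂ L _ _ _ _ _ F G u v hu hv h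
  have h' := inv_rel hu hv h
  have h2 := subHom_inv _ _ hu hv h h'
  have h3 : (subHom (F.map (algebraMap K₁ L)) (G.map (algebraMap K₂ L)) u v h).comp
      (subHom (G.map (algebraMap K₂ L)) (F.map (algebraMap K₁ L)) u⁻¹ v⁻¹ h') = RingHom.id _ := by
    have h4 := subHom_inv (G.map (algebraMap K₂ L)) (F.map (algebraMap K₁ L)) (inv_ne_zero hu)
      (inv_ne_zero hv) h' (by rw [inv_inv, inv_inv]; exact h)
    simpa only [inv_inv] using h4
  refine ⟨MonoidHom.toMulEquiv (CommRing.Pic.mapRingHom (subHom _ _ u v h))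
    (CommRing.Pic.mapRingHom (subHom _ _ u⁻¹ v⁻¹ h')) ?_ ?_⟩
  · ext x
    rw [MonoidHom.comp_apply, CommRing.Pic.mapRingHom_mapRingHom, h2,
      CommRing.Pic.mapRingHom_id, MonoidHom.id_apply]
  · ext x
    rw [MonoidHom.comp_apply, CommRing.Pic.mapRingHom_mapRingHom, h3,
      CommRing.Pic.mapRingHom_id, MonoidHom.id_apply]

end Pool.Agent.Q269.GT
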