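import Pool.Agent.Q269.GT.Cn

/-!
# The kernel of a prime as the kernel of a form in the exponents at the bad primes
-/

set_option autoImplicit false
set_option linter.all false

open scoped Classical
open Polynomial Module

namespace Pool.Agent.Q269.GT

open Finset
open Pool.Agent.H341R2.Sharp
open Pool.Agent.Y164.HG
open Pool.Agent.Y164.PS (L ch lam_mem L_C ch_mul ch_eq_zero_iff L_mul_left coprime_C
  coprime_of_not_dvd L_of_not_coprime lam_eq_zero_iff Fam L_comm L_neg_left)

variable {k : Type} [Field k] [Fintype k] [DecidableEq k]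
variable {n : ℕ} [Fact (Odd n)] {a : Fin n → k[X]} {N : ℕ} (H : Geo a N)

/-- the vector with the exponents `z` -/
noncomputable def wv (z : Tau a → F2) : Fin n → F2 := fun i => ∑ s, z s * e2 (H.p s) (H.q s) i

/-- the dot product -/
def dt (x y : Fin n → F2) : F2 := ∑ i, x i * y i

/-- the form in the exponents -/
noncomputable def fm (P : k[X]) (z z' : Tau a → F2) : F2 :=
  ∑ s, L P (QQ a s) * ((z s + dt (wv H z) (e2 (H.p s) (H.q s))) *
    (z' s + dt (wv H z') (e2 (H.p s) (H.q s)))) +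
  ∑ s, H.comb.gg s * (z s * z' s) +
  ∑ s, ∑ s', L (QQ a s) (QQ a s') *
    (z s' * z' s * dt (e2 (H.p s') (H.q s')) (e2 (H.p s) (H.q s))) +
  dt (H.comb.ksf (wv H z)) (wv H z')

theorem add_eq_zero_W {W : Type} [AddCommGroup W] [Module F2 W] {x y : W} (h : x + y = 0) :
    x = y := by
  have h2 : x = x + (y + y) := by rw [W_add_self, add_zero]
  rw [h2, ← add_assoc, h, zero_add]

theorem base_of_fm (he : ∀ s : Tau a, Odd (QQ a s).natDegree) {P : k[X]}
    (hnd : ∀ z : Tau a → F2, (∀ z', fm H P z z' = 0) → z = 0) : BaseT H P := by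
  have he1 : ∀ s : Tau a, ((QQ a s).natDegree : F2) = 1 := fun s =>
    (ZMod.natCast_eq_one_iff_odd).2 (he s)
  obtain ⟨D, hD⟩ : ∃ D, D = H.dat (sP H P) := ⟨_, rfl⟩
  obtain ⟨W, hW⟩ : ∃ W : (Tau a → F2) → EW n, ∀ z, W z = ∑ s, z s • E2v (H.p s) (H.q s) :=
    ⟨_, fun z => rfl⟩
  have hW1 : ∀ z, (W z).1 = wv H z := by
    intro z
    funext i
    rw [hW, Submodule.coe_sum, Finset.sum_apply]
    rfl
  have hdg : ∀ (w : Unit → EW n) (z : Tau a → F2),
      dg (H.dat (sP H P)) (fun _ : Unit => 1) (w, z) = w () + W z := by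
    intro w z
    rw [dg, hW]
    congr 1
    · show ∑ i : Unit, (1 : F2) • w i = w ()
      rw [Fintype.sum_unique, one_smul]
    · refine sum_congr rfl fun s _ => ?_
      show (((QQ a s).natDegree : F2) * z s) • E2v (H.p s) (H.q s) = _
      rw [he1, one_mul]
  have hFF : ∀ z z' : Tau a → F2, FF (H.dat (sP H P)) (fun (_ _ : Unit) => (0 : F2))
      (fun _ s => L P (QQ a s)) (fun _ => 1) ((fun _ => W z), z) ((fun _ => W z'), z') =
      fm H P z z' := by
    intro z z'
    have o1 : ∀ (z : Tau a → F2) (i j : Fin n), om (W z) (E2v i j) = dt (wv H z) (e2 i j) := by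
      intro z i j
      rw [om_def, hW1]
      rfl
    have o2 : ∀ i j i' j' : Fin n, om (E2v i j : EW n) (E2v i' j') = dt (e2 i j) (e2 i' j') :=
      fun i j i' j' => rfl
    have o3 : om ((H.dat (sP H P)).ks (W z)) (W z') = dt (H.comb.ksf (wv H z)) (wv H z') := by
      rw [om_def, hW1]
      show dt (H.comb.ksf (W z).1) (wv H z') = _
      rw [hW1]
    rw [FF, fm]
    have t1 : ∑ i : Unit, ∑ j : Unit, (0 : F2) * (om (W z) (W z') + om (W z) (W z')) = 0 :=
      sum_eq_zero fun i _ => sum_eq_zero fun j _ => zero_mul _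
    have t2 : ∑ i : Unit, ∑ s, L P (QQ a s) * (om (W z) ((H.dat (sP H P)).t s) *
        om (W z') ((H.dat (sP H P)).t s) + z s * om ((H.dat (sP H P)).t s) (W z') +
        z' s * om (W z) ((H.dat (sP H P)).t s)) + ∑ s, (H.dat (sP H P)).sp s * (z s * z' s) =
      ∑ s, L P (QQ a s) * ((z s + dt (wv H z) (e2 (H.p s) (H.q s))) *
        (z' s + dt (wv H z') (e2 (H.p s) (H.q s)))) + ∑ s, H.comb.gg s * (z s * z' s) := by
      rw [Fintype.sum_unique, ← sum_add_distrib, ← sum_add_distrib]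
      refine sum_congr rfl fun s _ => ?_
      show L P (QQ a s) * (om (W z) (E2v (H.p s) (H.q s)) * om (W z') (E2v (H.p s) (H.q s)) +
        z s * om (E2v (H.p s) (H.q s)) (W z') + z' s * om (W z) (E2v (H.p s) (H.q s))) +
        (L P (QQ a s) + H.comb.gg s) * (z s * z' s) = _
      rw [om_comm (E2v (H.p s) (H.q s)) (W z'), o1, o1]
      ring
    have t3 : ∑ s, ∑ s', (H.dat (sP H P)).G s s' * (z s' * z' s *
        om ((H.dat (sP H P)).t s') ((H.dat (sP H P)).t s)) =
        ∑ s, ∑ s', L (QQ a s) (QQ a s') *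
        (z s' * z' s * dt (e2 (H.p s') (H.q s')) (e2 (H.p s) (H.q s))) := rfl
    have t4 : ∑ i : Unit, (1 : F2) * om ((H.dat (sP H P)).ks (W z)) (W z') =
        dt (H.comb.ksf (wv H z)) (wv H z') := by
      rw [Fintype.sum_unique, one_mul, o3]
    have t2' : ∀ x y u v : F2, x + y = u → x + v + y = u + v := by
      intro x y u v h
      rw [← h]
      ring
    show ∑ i : Unit, ∑ j : Unit, (0 : F2) * (om (W z) (W z') + om (W z) (W z')) +
      ∑ i : Unit, ∑ s, L P (QQ a s) * (om (W z) ((H.dat (sP H P)).t s) *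
        om (W z') ((H.dat (sP H P)).t s) + z s * om ((H.dat (sP H P)).t s) (W z') +
        z' s * om (W z) ((H.dat (sP H P)).t s)) +
      ∑ s, ∑ s', (H.dat (sP H P)).G s s' * (z s' * z' s *
        om ((H.dat (sP H P)).t s') ((H.dat (sP H P)).t s)) +
      ∑ s, (H.dat (sP H P)).sp s * (z s * z' s) +
      ∑ i : Unit, (1 : F2) * om ((H.dat (sP H P)).ks (W z)) (W z') = _
    rw [t1, zero_add, t2' _ _ _ _ t2, t3, t4]
  intro w hw hk
  obtain ⟨w1, z⟩ := w
  rw [hdg] at hw
  have hw1 : w1 = fun _ => W z := by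
    funext u
    exact add_eq_zero_W hw
  have hz : z = 0 := by
    apply hnd
    intro z'
    rw [← hFF, ← hw1]
    apply hk
    rw [hdg]
    exact W_add_self _
  have h0 : W z = 0 := by
    rw [hW, hz]
    exact sum_eq_zero fun s _ => zero_smul _ _
  rw [hw1, hz]
  rw [hz] at h0
  rw [h0]
  rfl

end Pool.Agent.Q269.GT
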