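import Pool.Agent.Q269.GT.Stm3

set_option autoImplicit false
set_option linter.all false

open scoped Classical
open Polynomial Module

namespace Pool.Agent.Q269.GT

theorem t_SUB : S_SUB := by
  intro k E _ _ _ _ _ he
  haveI : Module.Finite k E := Module.Finite.of_finite
  haveI : IsGalois k E := inferInstance
  have hcard : Nat.card (E ≃ₐ[k] E) = finrank k E := IsGalois.card_aut_eq_finrank k E
  haveI : Fact (Nat.Prime 2) := ⟨Nat.prime_two⟩
  obtain ⟨g, hg⟩ := exists_prime_orderOf_dvd_card' (G := E ≃ₐ[k] E) 2 (by
    rw [hcard]
    exact he.two_dvd)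
  refine ⟨IntermediateField.fixedField (Subgroup.zpowers g), inferInstance, inferInstance,
    inferInstance, inferInstance, inferInstance, ?_⟩
  rw [IntermediateField.finrank_fixedField_eq_card, Nat.card_zpowers, hg]

end Pool.Agent.Q269.GT
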