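import Pool.Agent.Q269.GT.Dv
import Pool.Agent.Q269.GT.Ex3
import Pool.Agent.Q269.GT.Iso
import Pool.Agent.Q269.GT.Sub
import Pool.Agent.Q299.GT.GEN
import Pool.Agent.Q299.GT.FLD

/-!
# The final theorem
-/

set_option autoImplicit false
set_option linter.all false

open scoped Classical
open Polynomial Module

namespace Pool.Agent.Q269.GT

open Pool.Agent.Y713.Jac (J ShaPrimaryTrivial)
open Pool.Agent.Y164.HG (Del Geo)

/-- The conclusion for the prime `P`. -/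
def FullD {k : Type} [Field k] {n : ℕ} (a : Fin n → k[X]) (P : k[X]) : Prop :=
  ∀ (E : Type) [Field E] [Finite E] [Algebra k E],
    (∀ Q, IsBad a Q → Nat.Coprime Q.natDegree (finrank k E)) → ∀ c : E, c ≠ 0 →
    ∀ (K : Type) [Field K] [Algebra E[X] K] [IsFractionRing E[X] K],
      ((Even (finrank k E) → ¬ IsSquare c) →
        ShaPrimaryTrivial 2 (curve K a P c) E[X] ∧
        ∀ x : J 2 (curve K a P c) K, ∃ t y : J 2 (curve K a P c) K, t ^ 2 = 1 ∧ x = t * y ^ 2) ∧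
      Dvg (J 2 (curve K a P c) K)

theorem top {k : Type} [Field k]
    [Finite k] (h2 : (2 : k) ≠ 0) (hm1 : IsSquare (-1 : k))
    {n N : ℕ} (hn : Odd n) (hn3 : 3 ≤ n) (hN : Even N) (hN1 : 1 ≤ N) {a : Fin n → k[X]}
    (ha : ∀ i j, i ≠ j → (a i - a j).natDegree = N) (hs : Squarefree (Del a))
    (hodd : ∀ Q, IsBad a Q → Odd Q.natDegree) {R : k[X]} (hR : IsGood a R) {m : ℕ} (hm : m.Prime)
    (hmo : Odd m) :
    (Nat.card k : ℝ) ^ m / 2 ^ Nat.card (Bad a) -
      2 * ((Del a).natDegree : ℝ) * Real.sqrt ((Nat.card k : ℝ) ^ m) - Nat.card k ≤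
      (m : ℝ) * ((PrimesOf a R m).ncard : ℝ) ∧
    ({P | P ∈ PrimesOf a R m ∧ ¬ FullD a P}.ncard : ℝ) ≤
      6 * ((n : ℝ) - 1) * (Nat.card k : ℝ) ^ m / 2 ^ (orderOf (2 : ZMod m) / 4) := by
  haveI : Fintype k := Fintype.ofFinite k
  have hk : ringChar k ≠ 2 := by
    intro h
    apply h2
    have h3 : ((2 : ℕ) : k) = 0 := by
      rw [← h]
      exact ringChar.Nat.cast_ringChar
    exact_mod_cast h3
  have H : Geo a N := ⟨hk, hm1, hn, hn3, hN1, ha, hs⟩
  refine ⟨main_class H R hm, ?_⟩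
  refine le_trans ?_ (main_bad H hN hodd hR hm hmo)
  rw [Nat.cast_le]
  apply Set.ncard_le_ncard
  · rintro P ⟨p1, p2⟩
    refine ⟨p1, fun hF => p2 ?_⟩
    intro E _ _ _ hco c hc K _ _ _
    refine ⟨fun hcs => hF E hco c hc hcs K, ?_⟩
    have hinj : Function.Injective a := by
      intro i j hij
      by_contra hne
      have h4 := ha i j hne
      rw [hij, sub_self, natDegree_zero] at h4
      omega
    exact dv_all (Pool.Agent.Q299.GT.t_DSQ Pool.Agent.Q299.GT.t_GEN) t_ISO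
      Pool.Agent.Q299.GT.t_FLD t_SUB h2 hn hinj p1.1.ne_zero hF _ E rfl hco c hc K
  · apply ((Pool.Agent.H341R2.Sharp.Irr k m : Finset k[X]).finite_toSet).subset
    rintro P ⟨⟨h1, h2, h3, -⟩, -⟩
    rw [Finset.mem_coe, Pool.Agent.H341R2.Sharp.mem_Irr]
    exact ⟨h1, h2, h3.le⟩

end Pool.Agent.Q269.GT
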