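import Pool.Agent.Q269.GT.Bc
import Pool.Agent.Y164.HG.Cell

/-!
# The kernels over the extensions
-/

set_option autoImplicit false
set_option linter.all false

open scoped Classical
open Polynomial Module

namespace Pool.Agent.Q269.GT

open Finset
open Pool.Agent.H341R2.Sharp
open Pool.Agent.Y164.HG
open Pool.Agent.Y164.PS (L ch lam_mem L_C ch_mul ch_eq_zero_iff L_mul_left coprime_C
  coprime_of_not_dvd L_of_not_coprime lam_eq_zero_iff Fam L_comm L_neg_left)

section base
variable {k : Type} [Field k] [Fintype k] [DecidableEq k]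
variable {n : ℕ} [Fact (Odd n)] {a : Fin n → k[X]} {N : ℕ} (H : Geo a N)

/-- the types of the bad primes for the twist by a prime -/
noncomputable def sP (P : k[X]) (s : Tau a) : F2 := L P (QQ a s) + H.comb.gg s

/-- the kernel for the twist by a prime is trivial -/
def BaseT (P : k[X]) : Prop := Triv (H.dat (sP H P)) (fun (_ _ : Unit) => (0 : F2))
  (fun _ s => L P (QQ a s)) (fun _ => 1)

/-- the endomorphism of a prime -/
noncomputable def Cm (P : k[X]) : EW n →ₗ[F2] EW n where
  toFun w := ∑ r, L P (QQ a r) • (om w ((H.dat (sP H P)).t r) • (H.dat (sP H P)).t r) +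
    (H.dat (sP H P)).ks w
  map_add' x y := by
    simp only [om_add_left, add_smul, smul_add, sum_add_distrib, (H.dat (sP H P)).ks_add]
    abel
  map_smul' c x := by
    have h0 : (H.dat (sP H P)).ks 0 = 0 := by
      have h := (H.dat (sP H P)).ks_add 0 0
      rw [add_zero] at h
      have h2 := congrArg (fun z => z + (H.dat (sP H P)).ks 0) h
      simp only [add_assoc, W_add_self, add_zero, zero_add] at h2
      exact h2.symm
    rcases F2_cases c with rfl | rfl
    · simp only [zero_smul, om_zero_left, smul_zero, sum_const_zero, h0, add_zero, RingHom.id_apply]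
    · simp only [one_smul, RingHom.id_apply]

/-- the symbols of a prime with its conjugates -/
noncomputable def SP (P : k[X]) (i : ℕ) : F2 := L (X - X ^ (Nat.card k ^ i)) P

/-- the prime is not exceptional -/
def NonEx (P : k[X]) : Prop := ∀ ξ : AlgebraicClosure F2, ξ ^ P.natDegree = 1 → ξ ≠ 1 →
  aeval (∑ j ∈ range P.natDegree, algebraMap F2 (AlgebraicClosure F2) (SP P j) * (ξ ^ j + 1))
    (Cm H P).charpoly ≠ 0

end base

variable {k E : Type} [Field k] [Fintype k] [DecidableEq k] [Field E] [Fintype E] [DecidableEq E]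
  [Algebra k E]
variable {n : ℕ} [Fact (Odd n)] {a : Fin n → k[X]} {N : ℕ} (H : Geo a N)
variable {c : E} (H' : Geo (aE a c) N) (ε : Tau (aE a c) ≃ Tau a)
  (hε : ∀ s, QQ (aE a c) s = (QQ a (ε s)).map (algebraMap k E))
variable {ι : Type} [Fintype ι] {T : ι → E[X]}

/-- the conclusion over `E` -/
def TrivE (T : ι → E[X]) : Prop := ∃ σ : Tau (aE a c) → F2, cl (H'.dat σ) (QQ (aE a c)) T ∧
  Triv (H'.dat σ) (AT T) (BT (QQ (aE a c)) T) (fun i => ((T i).natDegree : F2))

/-- the types over `E` -/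
noncomputable def sE (T : ι → E[X]) (s : Tau (aE a c)) : F2 :=
  ∑ i, BT (QQ (aE a c)) T i s + H'.comb.gg s

theorem sE_cl : cl (H'.dat (sE H' T)) (QQ (aE a c)) T := by
  intro s
  show sE H' T s + ∑ i, BT (QQ (aE a c)) T i s + H'.comb.gg s = 0
  rw [sE, add_assoc]
  exact F2_add_self _

include H hε in
/-- fields of even degree -/
theorem triv_even (hEVN : S_EVN) (hc : c ≠ 0) (hns : ¬ IsSquare c) (he : Even (finrank k E))
    (hodd : ∀ s, Odd (QQ a s).natDegree) (hN : Even N) (hι : Odd (Fintype.card ι))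
    (hA : ∀ i j, AT T i j = 0) (hB : ∀ i s, BT (QQ (aE a c)) T i s = 0)
    (hd : ∀ i, Odd (T i).natDegree) : TrivE H' T := by
  have e0 : (finrank k E : F2) = 0 := (ZMod.natCast_eq_zero_iff_even).2 he
  have hc1 : ch c = 1 := F2_ne_zero fun h => hns ((ch_eq_zero_iff hc).1 h)
  refine ⟨sE H' T, sE_cl H', ?_⟩
  have k1 : AT T = fun _ _ => 0 := by
    funext i j
    exact hA i j
  have k2 : BT (QQ (aE a c)) T = fun _ _ => 0 := by
    funext i s
    exact hB i s
  have k3 : (fun i => ((T i).natDegree : F2)) = fun _ => 1 := by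
    funext i
    exact (ZMod.natCast_eq_one_iff_odd).2 (hd i)
  rw [k1, k2, k3]
  refine hEVN _ _ ι (H'.dat (sE H' T)) (fun s s' => ?_) (fun s => ?_) (fun s => ?_) (fun y => ?_) ?_ hι
  · show L (QQ (aE a c) s) (QQ (aE a c) s') = 0
    rw [G_eq ε hε H.hk, e0, zero_mul]
  · show sE H' T s = 1
    rw [sE, sum_congr rfl fun i _ => hB i s, sum_const_zero, zero_add, gg_eq H hc H' ε hε, e0,
      zero_mul, add_zero, hc1, mul_one]
    exact (ZMod.natCast_eq_one_iff_odd).2 (hodd _)
  · show ((QQ (aE a c) s).natDegree : F2) = 1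
    rw [e_eq ε hε]
    exact (ZMod.natCast_eq_one_iff_odd).2 (hodd _)
  · apply Subtype.ext
    funext i
    show H'.comb.ksf y.1 i = y.1 i
    rw [ksf_eq H hc H' y.2, hc1, e0, one_mul, zero_mul, add_zero]
  · show (N : F2) = 0
    exact (ZMod.natCast_eq_zero_iff_even).2 hN

include H hε in
/-- fields of odd degree: comparison with a kernel over the base -/
theorem triv_odd (hRLB : S_RLB) (hc : c ≠ 0) (hc0 : ch c = 0) (he : Odd (finrank k E)) {P : k[X]}
    {ι' : Type} [Fintype ι'] (φ : ι ≃ ι') {A : ι' → ι' → F2}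
    (hι : Odd (Fintype.card ι))
    (hA : ∀ i j, AT T i j = A (φ i) (φ j))
    (hB : ∀ i s, BT (QQ (aE a c)) T i s = L P (QQ a (ε s)))
    (hd : ∀ i, Odd (T i).natDegree)
    (hT : Triv (H.dat (sP H P)) A (fun (_ : ι') s => L P (QQ a s)) (fun _ => 1)) : TrivE H' T := by
  have e0 : (finrank k E : F2) = 1 := (ZMod.natCast_eq_one_iff_odd).2 he
  refine ⟨sE H' T, sE_cl H', ?_⟩
  refine hRLB _ _ _ _ _ (H.dat (sP H P)) (H'.dat (sE H' T)) ε φ A (fun _ s => L P (QQ a s))
    (fun _ => 1) _ _ _ (fun s => ?_) (fun s s' => ?_) (fun s => ?_) (fun s => ?_) (fun y => ?_)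
    (fun i j => hA i j) (fun i s => hB i s) (fun i => ?_) hT
  · show E2v (H'.p s) (H'.q s) = E2v (H.p (ε s)) (H.q (ε s))
    obtain ⟨h1, h2⟩ := pq_eq H H' ε hε s
    rw [h1, h2]
  · show L (QQ (aE a c) s) (QQ (aE a c) s') = L (QQ a (ε s)) (QQ a (ε s'))
    rw [G_eq ε hε H.hk, e0, one_mul]
  · show ((QQ (aE a c) s).natDegree : F2) = ((QQ a (ε s)).natDegree : F2)
    rw [e_eq ε hε]
  · show sE H' T s = sP H P (ε s)
    rw [sE, sum_congr rfl fun i _ => hB i s, sum_const, card_univ, nsmul_eq_mul,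
      (ZMod.natCast_eq_one_iff_odd).2 hι, one_mul, gg_eq H hc H' ε hε, e0, one_mul, hc0, mul_zero,
      zero_add]
    rfl
  · apply Subtype.ext
    funext i
    show H'.comb.ksf y.1 i = H.comb.ksf y.1 i
    rw [ksf_eq H hc H' y.2, hc0, e0, one_mul, zero_mul, zero_add]
  · exact (ZMod.natCast_eq_one_iff_odd).2 (hd i)

/-- the symbols of the conjugates -/
theorem L_conj (hSPL : S_SPL) (hk : ringChar k ≠ 2) (hm1 : IsSquare (-1 : k)) {P : k[X]}
    (hP : P.Monic) (hi : Irreducible P) {θ : E} (hθ : aeval θ P = 0) [NeZero P.natDegree]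
    (i j : ZMod P.natDegree) :
    L (X - C (θ ^ (Nat.card k ^ i.val))) (X - C (θ ^ (Nat.card k ^ j.val))) =
      ((finrank k E / P.natDegree : ℕ) : F2) * SP P (j - i).val := by
  have hkE := ringChar_E (E := E) hk
  obtain ⟨-, hper⟩ := hSPL k E P θ hP hi hθ
  obtain ⟨p, hp⟩ := CharP.exists k
  obtain ⟨r, hpp, hr⟩ := FiniteField.card k p
  haveI : Fact p.Prime := ⟨hpp⟩
  haveI : CharP E p := charP_of_injective_algebraMap (algebraMap k E).injective p
  have hq : Nat.card k = p ^ (r : ℕ) := by rw [Nat.card_eq_fintype_card, hr]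
  have hqodd : Odd (Nat.card k) := by
    rw [Nat.card_eq_fintype_card, ← Nat.not_even_iff_odd]
    intro h
    exact hk ((FiniteField.even_card_iff_char_two).2 (Nat.even_iff.1 h))
  set t := (j - i).val with ht
  have hmod : i.val + t ≡ j.val [MOD P.natDegree] := by
    rw [← ZMod.natCast_eq_natCast_iff, Nat.cast_add, ht, ZMod.natCast_zmod_val,
      ZMod.natCast_zmod_val, ZMod.natCast_zmod_val, add_sub_cancel]
  have h1 : θ ^ (Nat.card k ^ j.val) = (θ ^ (Nat.card k ^ t)) ^ (Nat.card k ^ i.val) := by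
    rw [← (hper _ _).2 hmod, ← pow_mul, ← pow_add, add_comm]
  rw [L_lin hkE, eval_sub, eval_X, eval_C]
  have h2 : θ ^ (Nat.card k ^ j.val) - θ ^ (Nat.card k ^ i.val) =
      (θ ^ (Nat.card k ^ t) - θ) ^ (Nat.card k ^ i.val) := by
    have h8 : Nat.card k ^ i.val = p ^ ((r : ℕ) * i.val) := by rw [hq, ← pow_mul]
    rw [h1, h8]
    generalize θ ^ Nat.card k ^ t = A
    exact (sub_pow_char_pow A θ _).symm
  rw [h2]
  have h3 : ∀ (x : E) (e : ℕ), Odd e → ch (x ^ e) = ch x := by
    intro x e he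
    unfold ch
    rw [map_pow]
    have h4 := sym_pow (qc_mem E x) he.pos
    rw [h4, (ZMod.natCast_eq_one_iff_odd).2 he, one_mul]
  rw [h3 _ _ (hqodd.pow)]
  have h4 : θ ^ (Nat.card k ^ t) - θ = (-1) * aeval θ (X - X ^ (Nat.card k ^ t) : k[X]) := by
    rw [map_sub, map_pow, aeval_X]
    ring
  have h5 : ch ((-1) * aeval θ (X - X ^ (Nat.card k ^ t) : k[X])) =
      ch (aeval θ (X - X ^ (Nat.card k ^ t) : k[X])) := by
    have h6 : IsSquare (-1 : E) := by
      have := hm1.map (algebraMap k E)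
      rwa [map_neg, map_one] at this
    by_cases h7 : aeval θ (X - X ^ (Nat.card k ^ t) : k[X]) = 0
    · rw [h7, mul_zero]
    · rw [ch_mul (by simp) h7, (ch_eq_zero_iff (by simp)).2 h6, zero_add]
  rw [h4, h5, ch_aeval hk hP hi hθ]
  rfl

theorem L_conj_bad (hSPL : S_SPL) (hk : ringChar k ≠ 2) (hm1 : IsSquare (-1 : k)) {P : k[X]}
    (hP : P.Monic) (hi : Irreducible P) {θ : E} (hθ : aeval θ P = 0) (Q : k[X]) :
    L (X - C θ) (Q.map (algebraMap k E)) = ((finrank k E / P.natDegree : ℕ) : F2) * L P Q := by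
  have hkE := ringChar_E (E := E) hk
  have h6 : IsSquare (-1 : E) := by
    have := hm1.map (algebraMap k E)
    rwa [map_neg, map_one] at this
  rw [L_comm h6, L_lin hkE, eval_map_algebraMap, ch_aeval hk hP hi hθ, L_comm hm1]

/-- the conjugates are roots -/
theorem root_conj (P : k[X]) {θ : E} (hθ : aeval θ P = 0) (i : ℕ) :
    aeval (θ ^ (Nat.card k ^ i)) P = 0 := by
  have h1 : ∀ x : E, aeval x P = 0 → aeval (x ^ Nat.card k) P = 0 := by
    intro x hx
    have h2 : x ^ Nat.card k = FiniteField.frobeniusAlgHom k E x := by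
      rw [FiniteField.coe_frobeniusAlgHom, Nat.card_eq_fintype_card]
    rw [h2, aeval_algHom_apply, hx, map_zero]
  induction i with
  | zero => rwa [pow_zero, pow_one]
  | succ i ih =>
    rw [pow_succ, pow_mul]
    exact h1 _ ih

end Pool.Agent.Q269.GT
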